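import Pool.Agent.Lib.MP_305fdd_al.F8.NG.T.DefsA

/-!
# MP_305fdd_al, once-punctured torus bundles: transfer, the pieces on the rings `R ⊗ A`
-/

set_option autoImplicit false

namespace Pool.Agent.F8.NG.T

open Pool.Agent.MP_305fdd_al Pool.Agent.Lib.MP_305fdd_al Pool.Agent.F2X Pool.Agent.F8
  Pool.Agent.F8.HN
open scoped TensorProduct

noncomputable section

/-- [T lim] `ℤ_p ⊗ A` is a limit. (General: `pf_lz`.)

Proof. Let `b` be a basis of `A` over `ℤ`. `R ⊗ A` is free over `R` with the basis `1 ⊗ b i` (`Module.Basis.baseChange` or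
`Algebra.TensorProduct.basis`), and `TM A f` acts on the coordinates through `f`. So the claim follows from `S_lz` in every
coordinate. -/
def S_lim : Prop := ∀ (A : Type) [CommRing A] [Module.Free ℤ A] [Module.Finite ℤ A] (p : ℕ)
  [Fact p.Prime], IsLim (AT ℤ_[p] A) (fun k => AT (ZMod (p ^ k)) A)
    (fun k => TM A (PadicInt.toZModPow k)) (fun k => TM A (tz p k))

/-- [T rL] the limit of the matched representations. (Uses `S_lim`; general: `pf_lh`. As `PT/rL.lean`, `map_rA`.) -/
def S_rL : Prop := ∀ (G Λ : Type) [Group G] [Group Λ] (Φ : NatBij G Λ) (A : Type) [CommRing A]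
  [Module.Free ℤ A] [Module.Finite ℤ A] (ρ₀ : G →* SL2 A) (p : ℕ) [Fact p.Prime],
  ∃ r : Λ →* SL2 (AT ℤ_[p] A), RL Φ ρ₀ p r

/-- [T ji] homomorphisms to fields of characteristic zero are injective.

Proof. `A` is integral over `ℤ`; the kernel is a prime ideal which meets `ℤ` in `0` (`Ideal.eq_bot_of_comap_eq_bot`,
or: a nonzero `x` divides a nonzero integer, the constant coefficient of its minimal polynomial over `ℤ`). The second part is a
consequence: every nonzero `x : A` divides a nonzero integer. -/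
def S_ji : Prop := ∀ (A : Type) [CommRing A] [IsDomain A] [Module.Free ℤ A] [Module.Finite ℤ A],
  (∀ (K : Type) [Field K] [CharZero K] (j : A →+* K), Function.Injective j) ∧
  ∀ x : A, x ≠ 0 → ∃ (y : A) (N : ℤ), N ≠ 0 ∧ x * y = N

/-- [T exj] embeddings exist.

Proof. `FractionRing A` is algebraic over `ℚ` (`A` is integral over `ℤ`), `IsAlgClosed.lift`. -/
def S_exj : Prop := ∀ (A : Type) [CommRing A] [IsDomain A] [Module.Free ℤ A] [Module.Finite ℤ A]
  (p : ℕ) [Fact p.Prime], ∃ _ : A →+* Fl p, True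

/-- [T gl] Galois descent to the fraction field.

Proof. `j` is injective (`S_ji`). Let `E = IntermediateField.adjoin ℚ (Set.range j)`. The elements of `Q̄` fixed by all automorphisms
over `E` are in `E` (`Q̄ / E` is algebraic, normal and separable: `IsGalois`, `InfiniteGalois.fixedField_bot`-like, or: the minimal
polynomial of `x` over `E` is separable and splits, its roots are conjugate to `x` over `E`, so its degree is
one). `E` is the set of the quotients `j y / m` with `y : A`, `m` a nonzero integer: this set is a subfield, since every nonzero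
`y` divides a nonzero integer (`S_ji`). -/
def S_gl : Prop := ∀ (A : Type) [CommRing A] [IsDomain A] [Module.Free ℤ A] [Module.Finite ℤ A]
  (j : A →+* AlgebraicClosure ℚ) (x : AlgebraicClosure ℚ),
  (∀ g : AlgebraicClosure ℚ ≃ₐ[ℚ] AlgebraicClosure ℚ, (∀ y, g (j y) = j y) → g x = x) →
  ∃ (m : ℕ) (y : A), m ≠ 0 ∧ (m : AlgebraicClosure ℚ) * x = j y

/-- [T emb] extension of embeddings. (Uses `S_ji`.)

Proof. `j`, `j'` are injective (`S_ji`). Make `Q̄` an algebra over `A` by `j`, algebraic (over `ℤ`), and `Fl p` by `j'`; `IsAlgClosed.lift` for the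
domain `A` (`R S : domains, S algebraic over R, no zero smul divisors`), or for the fraction field of `A`. -/
def S_emb : Prop := ∀ (A : Type) [CommRing A] [IsDomain A] [Module.Free ℤ A] [Module.Finite ℤ A]
  (p : ℕ) [Fact p.Prime] (j : A →+* AlgebraicClosure ℚ) (j' : A →+* Fl p),
  ∃ ι : AlgebraicClosure ℚ →+* Fl p, ι.comp j = j'

/-- [T sep] the homomorphisms to `Fl p` separate the elements of `ℤ_p ⊗ A`.

Proof. Let `E = FractionRing A`, a finite extension of `ℚ`, `b` a basis of `A` over `ℤ`, it is a basis of `E` over `ℚ`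
(`Module.Basis.localizationLocalization`). Let `σ` run through the embeddings `E → Fl p` (as `ℚ`-algebras; there are `[E : ℚ]` of
them). The matrix `σ (b i)` is invertible: Mathlib `Algebra.discr_not_zero_of_basis` and `Algebra.discr_eq_det_embeddingsMatrixReindex_pow_two`
(or linear independence of characters, `linearIndependent_monoidHom`, and `AlgHom.card`). If `y = ∑ y i ⊗ b i`, `y i ∈ ℤ_p`, then `∑ iz (y i) σ (b i) = 0` for all `σ`, so
`y i = 0` for all `i`. -/
def S_sep : Prop := ∀ (A : Type) [CommRing A] [IsDomain A] [Module.Free ℤ A] [Module.Finite ℤ A]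
  (p : ℕ) [Fact p.Prime] (y : AT ℤ_[p] A), (∀ j : A →+* Fl p, jj (iz p) j y = 0) → y = 0

/-- [T div] divisibility. (General: `pf_int` is not needed.)

Proof. In the coordinates of a basis of `A`: `m y_i = a_i` in `ℤ_p` for all `p`, so `p ^ k ∣ m` implies `p ^ k ∣ a_i` (in `ℤ_p`, hence in
`ℤ`: `PadicInt.pow_p_dvd_int_iff` or norms) for all `p, k`, so `m ∣ a_i`. `t = ∑ (a_i / m) b_i`, `m (y - t) = 0` in `ℤ_p ⊗ A`, torsion free. -/
def S_div : Prop := ∀ (A : Type) [CommRing A] [Module.Free ℤ A] [Module.Finite ℤ A]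
  (m : ℕ) (x : A) (y : ∀ (p : ℕ) [Fact p.Prime], AT ℤ_[p] A), m ≠ 0 →
  (∀ (p : ℕ) [Fact p.Prime], (m : AT ℤ_[p] A) * y p = ia ℤ_[p] A x) →
  ∃ t : A, (m : A) * t = x ∧ ∀ (p : ℕ) [Fact p.Prime], y p = ia ℤ_[p] A t

/-- [T red] from prime powers to all finite rings.

Proof. Let `N = Nat.card S`, so `N = 0` in `S`; `h = (jj c h) ∘ ia (ZMod N) A` with `c : ZMod N →+* S` (`ZMod.lift`/`ZMod.castHom` for the
characteristic of `S`). By naturality it suffices to show `tr (Φ (rA (ZMod N) ρ₀) l) = ia (ZMod N) A t` in `ZMod N ⊗ A`. For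
every prime power `p ^ k` dividing `N` the images of both sides in `ZMod (p ^ k) ⊗ A` are equal (`map_rA`, naturality, `RL`,
`TM_ia_apply`), and an element `∑ z_i ⊗ b_i` of `ZMod N ⊗ A` whose images in `ZMod (p ^ k) ⊗ A` vanish for all prime powers dividing
`N` is zero. -/
def S_red : Prop := ∀ (G Λ : Type) [Group G] [Group Λ] (Φ : NatBij G Λ) (A : Type) [CommRing A]
  [Module.Free ℤ A] [Module.Finite ℤ A] (ρ₀ : G →* SL2 A)
  (r : ∀ (p : ℕ) [Fact p.Prime], Λ →* SL2 (AT ℤ_[p] A)),
  (∀ (p : ℕ) [Fact p.Prime], RL Φ ρ₀ p (r p)) → ∀ (l : Λ) (t : A),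
  (∀ (p : ℕ) [Fact p.Prime], tr (r p l) = ia ℤ_[p] A t) →
  ∀ (S : Type) [CommRing S] [Finite S] (h : A →+* S),
    h t = tr (Φ.toFun _ ((SLm h).comp ρ₀) l)

end

end Pool.Agent.F8.NG.T
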