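import Pool.Agent.Lib.MP_305fdd_al.F8.NG.T.StmA

/-!
# MP_305fdd_al, block NTG, piece div: divisibility in coordinates
-/

set_option autoImplicit false

namespace Pool.Agent.F8.NG.T

open Pool.Agent.MP_305fdd_al Pool.Agent.Lib.MP_305fdd_al Pool.Agent.F2X Pool.Agent.F8
  Pool.Agent.F8.HN
open scoped TensorProduct

noncomputable section

section

variable {A ι : Type} [CommRing A] (b : Module.Basis ι ℤ A) (R : Type) [CommRing R]

theorem div_repr_ia (x : A) (i : ι) :
    (b.baseChange R).repr (ia R A x) i = ((b.repr x i : ℤ) : R) := by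
  rw [ia_apply, Module.Basis.baseChange_repr_tmul, zsmul_one]

theorem div_repr_mul (m : ℕ) (y : AT R A) (i : ι) :
    (b.baseChange R).repr ((m : AT R A) * y) i = (m : R) * (b.baseChange R).repr y i := by
  rw [← nsmul_eq_mul, map_nsmul, Finsupp.smul_apply, nsmul_eq_mul]

end

theorem p_div : S_div := by
  intro A _ _ _ m x y hm hy
  let b := Module.Free.chooseBasis ℤ A
  have hcoord : ∀ (p : ℕ) [Fact p.Prime] i,
      (m : ℤ_[p]) * (b.baseChange ℤ_[p]).repr (y p) i = ((b.repr x i : ℤ) : ℤ_[p]) := by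
    intro p _ i
    rw [← div_repr_mul, hy p, div_repr_ia]
  have hdvd : ∀ i, (m : ℤ) ∣ b.repr x i := by
    intro i
    rw [← Int.dvd_natAbs, Int.natCast_dvd_natCast, Nat.dvd_iff_prime_pow_dvd_dvd]
    intro p k hp hpk
    haveI : Fact p.Prime := ⟨hp⟩
    have h1 : ((p : ℤ_[p]) ^ k) ∣ ((b.repr x i : ℤ) : ℤ_[p]) := by
      rw [← hcoord p i]
      refine Dvd.dvd.mul_right ?_ _
      obtain ⟨c, hc⟩ := hpk
      exact ⟨c, by rw [hc]; push_cast; ring⟩
    rw [PadicInt.pow_p_dvd_int_iff] at h1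
    rw [← Int.natCast_dvd_natCast, Int.dvd_natAbs]
    exact_mod_cast h1
  choose c hc using hdvd
  refine ⟨∑ i, c i • b i, ?_, ?_⟩
  · apply b.repr.injective
    ext i
    rw [← nsmul_eq_mul, map_nsmul, Finsupp.smul_apply, b.repr_sum_self, hc i, nsmul_eq_mul]
  · intro p _
    apply (b.baseChange ℤ_[p]).repr.injective
    ext i
    have hm' : (m : ℤ_[p]) ≠ 0 := Nat.cast_ne_zero.2 hm
    have : (b.baseChange ℤ_[p]).repr (y p) i =
        (b.baseChange ℤ_[p]).repr (ia ℤ_[p] A (∑ i, c i • b i)) i := by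
      apply mul_left_cancel₀ hm'
      rw [hcoord p i, div_repr_ia, b.repr_sum_self, hc i]
      push_cast
      rfl
    rw [this]

end

end Pool.Agent.F8.NG.T
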