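import Pool.Agent.Lib.MP_305fdd_al.F8.NG.T.StmA

set_option autoImplicit false

/-! The pieces `gl`, `emb`: Galois descent and extension of embeddings. -/

namespace Pool.Agent.F8.NG.T

open Pool.Agent.MP_305fdd_al Pool.Agent.Lib.MP_305fdd_al Pool.Agent.F2X Pool.Agent.F8 Pool.Agent.F8.HN

/-- the elements `j y / m` -/
private theorem gl_frac {A : Type} [CommRing A] (K : Type) [Field K] [CharZero K]
    (hd : ∀ x : A, x ≠ 0 → ∃ (y : A) (N : ℤ), N ≠ 0 ∧ x * y = N) (j : A →+* K) {x : K}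
    (hx : x ∈ IntermediateField.adjoin ℚ (Set.range j)) :
    ∃ (m : ℕ) (y : A), m ≠ 0 ∧ (m : K) * x = j y := by
  induction hx using IntermediateField.adjoin_induction with
  | mem x hx =>
    obtain ⟨y, rfl⟩ := hx
    exact ⟨1, y, one_ne_zero, by simp⟩
  | algebraMap q =>
    refine ⟨q.den, (q.num : A), q.den_nz, ?_⟩
    have h1 : (algebraMap ℚ K q) = (q.num : K) / (q.den : K) := by
      rw [eq_ratCast, Rat.cast_def]
    have h2 : (q.den : K) ≠ 0 := Nat.cast_ne_zero.2 q.den_nz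
    rw [h1, map_intCast]
    field_simp
  | add x y _ _ hx hy =>
    obtain ⟨m1, y1, h1, e1⟩ := hx
    obtain ⟨m2, y2, h2, e2⟩ := hy
    refine ⟨m1 * m2, (m2 : A) * y1 + (m1 : A) * y2, mul_ne_zero h1 h2, ?_⟩
    rw [map_add, map_mul, map_mul, map_natCast, map_natCast, ← e1, ← e2]
    push_cast
    ring
  | inv x _ hx =>
    obtain ⟨m, y, h, e⟩ := hx
    by_cases hx0 : x = 0
    · exact ⟨1, 0, one_ne_zero, by simp [hx0]⟩
    have hm : (m : K) ≠ 0 := Nat.cast_ne_zero.2 h
    have hy : y ≠ 0 := by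
      rintro rfl
      rw [map_zero] at e
      exact (mul_ne_zero hm hx0) e
    obtain ⟨y', N, hN, hyN⟩ := hd y hy
    have h3 : j y * j y' = (N : K) := by
      rw [← map_mul, hyN, map_intCast]
    have hN' : (N : K) ≠ 0 := Int.cast_ne_zero.2 hN
    have h4 : (N : K) * x⁻¹ = j ((m : A) * y') := by
      rw [map_mul, map_natCast, ← h3, ← e]
      field_simp
    refine ⟨N.natAbs, (N.sign : A) * ((m : A) * y'), Int.natAbs_ne_zero.2 hN, ?_⟩
    rw [map_mul, ← h4, map_intCast, ← mul_assoc]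
    congr 1
    have h5 : N.sign * N = (N.natAbs : ℤ) := Int.sign_mul_self_eq_natAbs N
    have h6 : ((N.natAbs : ℤ) : K) = (N.natAbs : K) := Int.cast_natCast _
    rw [← h6, ← h5]
    push_cast
    ring
  | mul x y _ _ hx hy =>
    obtain ⟨m1, y1, h1, e1⟩ := hx
    obtain ⟨m2, y2, h2, e2⟩ := hy
    refine ⟨m1 * m2, y1 * y2, mul_ne_zero h1 h2, ?_⟩
    rw [map_mul, ← e1, ← e2]
    push_cast
    ring

theorem p_gl (hji : S_ji) : S_gl := by
  intro A _ _ _ _ j x hx
  have hAlg : Algebra.IsAlgebraic ℚ (AlgebraicClosure ℚ) := AlgebraicClosure.isAlgebraic ℚ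
  have hCl : IsAlgClosure ℚ (AlgebraicClosure ℚ) := ⟨inferInstance, hAlg⟩
  have hNor : Normal ℚ (AlgebraicClosure ℚ) := IsAlgClosure.normal ℚ _
  have hGal : IsGalois ℚ (AlgebraicClosure ℚ) := isGalois_iff.2 ⟨inferInstance, hNor⟩
  refine gl_frac (AlgebraicClosure ℚ) (hji A).2 j ?_
  rw [← InfiniteGalois.fixedField_fixingSubgroup
    (IntermediateField.adjoin ℚ (Set.range j)), IntermediateField.mem_fixedField_iff]
  intro g hg
  refine hx g fun y => ?_
  exact (IntermediateField.mem_fixingSubgroup_iff _ _).1 hg (j y)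
    (IntermediateField.subset_adjoin ℚ _ ⟨y, rfl⟩)

theorem p_emb (hji : S_ji) : S_emb := by
  intro A _ _ _ _ p _ j j'
  have hj : Function.Injective j := (hji A).1 _ j
  have hj' : Function.Injective j' := (hji A).1 _ j'
  let : Algebra A (AlgebraicClosure ℚ) := j.toAlgebra
  let : Algebra A (Fl p) := j'.toAlgebra
  have h1 : Module.IsTorsionFree A (AlgebraicClosure ℚ) := by
    have : FaithfulSMul A (AlgebraicClosure ℚ) := (faithfulSMul_iff_algebraMap_injective _ _).2 hj
    infer_instance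
  have h2 : Module.IsTorsionFree A (Fl p) := by
    have : FaithfulSMul A (Fl p) := (faithfulSMul_iff_algebraMap_injective _ _).2 hj'
    infer_instance
  have h3 : Algebra.IsAlgebraic A (AlgebraicClosure ℚ) := by
    have hAlg : Algebra.IsAlgebraic ℚ (AlgebraicClosure ℚ) := AlgebraicClosure.isAlgebraic ℚ
    have h4 : Algebra.IsAlgebraic ℤ (AlgebraicClosure ℚ) :=
      ⟨fun x => (IsFractionRing.isAlgebraic_iff ℤ ℚ (AlgebraicClosure ℚ)).2 (hAlg.isAlgebraic x)⟩
    refine Algebra.IsAlgebraic.extendScalars (R := ℤ) (S := A) ?_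
    intro a b hab
    have h5 := congrArg j hab
    rw [eq_intCast, eq_intCast, map_intCast, map_intCast] at h5
    exact_mod_cast h5
  let ι : AlgebraicClosure ℚ →ₐ[A] Fl p := IsAlgClosed.lift
  refine ⟨ι.toRingHom, ?_⟩
  ext1 a
  exact ι.commutes a

end Pool.Agent.F8.NG.T
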