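import Pool.Agent.Lib.MP_305fdd_al.F8.NG.T.StmA
import Pool.Agent.Lib.MP_305fdd_al.F8.P.lz
import Pool.Agent.Lib.MP_305fdd_al.F8.P.lh

set_option autoImplicit false

/-!
# MP_305fdd_al, transfer: pieces [T lim] and [T rL]
-/

namespace Pool.Agent.F8.NG.T

open Pool.Agent.MP_305fdd_al Pool.Agent.Lib.MP_305fdd_al Pool.Agent.F2X Pool.Agent.F8
  Pool.Agent.F8.HN
open scoped TensorProduct

noncomputable section

/-- the coordinates of `TM A f x` -/
private theorem lim_coord {A : Type} [CommRing A] {ι : Type} (b : Module.Basis ι ℤ A)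
    {R S : Type} [CommRing R] [CommRing S] (f : R →+* S) (x : AT R A) (i : ι) :
    (Algebra.TensorProduct.basis S b).repr (TM A f x) i =
      f ((Algebra.TensorProduct.basis R b).repr x i) := by
  induction x using TensorProduct.induction_on with
  | zero => simp
  | tmul r a =>
    rw [TM_tmul, Algebra.TensorProduct.basis_repr_tmul, Algebra.TensorProduct.basis_repr_tmul]
    simp
  | add x y hx hy => rw [map_add, map_add, map_add, Finsupp.add_apply, Finsupp.add_apply,
      map_add, hx, hy]

theorem p_lim : S_lim := by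
  intro A _ _ _ p _
  let b := Module.Free.chooseBasis ℤ A
  refine ⟨?_, ?_⟩
  · intro k
    rw [TM_TM, (pf_lz p).1 k]
  · intro x hx
    have hc : ∀ i, ∃! y : ℤ_[p], ∀ k, PadicInt.toZModPow k y =
        (Algebra.TensorProduct.basis (ZMod (p ^ k)) b).repr (x k) i := by
      intro i
      refine (pf_lz p).2 (fun k => (Algebra.TensorProduct.basis (ZMod (p ^ k)) b).repr (x k) i) ?_
      intro k
      show tz p k ((Algebra.TensorProduct.basis (ZMod (p ^ (k + 1))) b).repr (x (k + 1)) i) = _
      rw [← lim_coord b (tz p k), hx k]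
    choose y hy hyu using hc
    refine ⟨(Algebra.TensorProduct.basis ℤ_[p] b).equivFun.symm y, ?_, ?_⟩
    · intro k
      apply (Algebra.TensorProduct.basis (ZMod (p ^ k)) b).repr.injective
      ext i
      rw [lim_coord b]
      have h1 : (Algebra.TensorProduct.basis ℤ_[p] b).repr
          ((Algebra.TensorProduct.basis ℤ_[p] b).equivFun.symm y) i = y i := by
        rw [← Module.Basis.equivFun_apply, LinearEquiv.apply_symm_apply]
      rw [h1]
      exact hy i k
    · intro z hz
      apply (Algebra.TensorProduct.basis ℤ_[p] b).equivFun.injective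
      rw [LinearEquiv.apply_symm_apply]
      funext i
      apply hyu i
      intro k
      rw [Module.Basis.equivFun_apply, ← lim_coord b]
      have := hz k
      rw [← this]

/-- the section `m ↦ (1, m, 0)` -/
private def lim_sec (R : Type) [CommRing R] : SL2 R →* Q2 R where
  toFun m := ⟨1, m, 0⟩
  map_one' := rfl
  map_mul' x y := by
    apply Q2.ext
    · simp
    · simp
    · simp

private theorem lim_mH_sec (R : Type) [CommRing R] :
    Q2.mH.comp (lim_sec R) = MonoidHom.id _ := rfl

private theorem lim_map_sec {R S : Type} [CommRing R] [CommRing S] (f : R →+* S) :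
    (Q2.map f).comp (lim_sec R) = (lim_sec S).comp (SLm f) := by
  ext1 m
  apply Q2.ext
  · show Units.map f.toMonoidHom 1 = 1
    simp
  · rfl
  · ext i
    show f 0 = 0
    simp

private theorem lim_mH_map {R S : Type} [CommRing R] [CommRing S] (f : R →+* S) :
    Q2.mH.comp (Q2.map f) = (SLm f).comp Q2.mH := rfl

theorem p_rL (hlim : S_lim) : S_rL := by
  intro G Λ _ _ Φ A _ _ _ ρ₀ p _
  obtain ⟨Θ', hΘ'⟩ := pf_lh (AT ℤ_[p] A) (fun k => AT (ZMod (p ^ k)) A) _ _ (hlim A p) Λ
    (fun k => Φ.toFun _ ((lim_sec _).comp (rA (ZMod (p ^ k)) ρ₀))) (by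
      intro k
      show (Q2.map (TM A (tz p k))).comp
        (Φ.toFun _ ((lim_sec _).comp (rA (ZMod (p ^ (k + 1))) ρ₀))) =
        Φ.toFun _ ((lim_sec _).comp (rA (ZMod (p ^ k)) ρ₀))
      rw [← Φ.nat, ← MonoidHom.comp_assoc, lim_map_sec, MonoidHom.comp_assoc, map_rA])
  refine ⟨Q2.mH.comp Θ', ?_⟩
  intro k
  have h1 := congrArg (fun f => Q2.mH.comp f) (hΘ' k)
  rw [← MonoidHom.comp_assoc, lim_mH_map, MonoidHom.comp_assoc] at h1
  rw [h1, ← Φ.nat, ← MonoidHom.comp_assoc, lim_mH_sec, MonoidHom.id_comp]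

end

end Pool.Agent.F8.NG.T
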