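import Pool.Agent.Lib.MP_305fdd_al.F8.NG.T.StmA

/-!
# MP_305fdd_al, block NTG, piece red: from prime powers to all finite rings
-/

set_option autoImplicit false

namespace Pool.Agent.F8.NG.T

open Pool.Agent.MP_305fdd_al Pool.Agent.Lib.MP_305fdd_al Pool.Agent.F2X Pool.Agent.F8
  Pool.Agent.F8.HN
open scoped TensorProduct

noncomputable section

/-- `TM A f` acts on the coordinates through `f` -/
theorem red_repr {A ι R S : Type} [CommRing A] [CommRing R] [CommRing S]
    (b : Module.Basis ι ℤ A) (f : R →+* S) (z : AT R A) (i : ι) :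
    (b.baseChange S).repr (TM A f z) i = f ((b.baseChange R).repr z i) := by
  induction z using TensorProduct.induction_on with
  | zero => simp
  | tmul r a =>
    rw [TM_tmul, Module.Basis.baseChange_repr_tmul, Module.Basis.baseChange_repr_tmul,
      map_zsmul]
  | add x y hx hy =>
    rw [map_add, map_add, map_add, Finsupp.add_apply, Finsupp.add_apply, map_add, hx, hy]

/-- an element of `ZMod N` which vanishes modulo all prime powers dividing `N` is zero -/
theorem red_zmod {N : ℕ} (hN : N ≠ 0) (u : ZMod N)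
    (h : ∀ (p k : ℕ) (hp : p.Prime) (hk : p ^ k ∣ N), ZMod.castHom hk (ZMod (p ^ k)) u = 0) :
    u = 0 := by
  haveI : NeZero N := ⟨hN⟩
  have h1 : N ∣ u.val := by
    rw [Nat.dvd_iff_prime_pow_dvd_dvd]
    intro p k hp hk
    have := h p k hp hk
    rw [ZMod.castHom_apply, ZMod.cast_eq_val, ZMod.natCast_eq_zero_iff] at this
    exact this
  rw [← ZMod.natCast_zmod_val u, ZMod.natCast_eq_zero_iff]
  exact h1

theorem red_AT {A : Type} [CommRing A] [Module.Free ℤ A] [Module.Finite ℤ A] {N : ℕ}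
    (hN : N ≠ 0) (z : AT (ZMod N) A)
    (h : ∀ (p k : ℕ) (hp : p.Prime) (hk : p ^ k ∣ N),
      TM A (ZMod.castHom hk (ZMod (p ^ k))) z = 0) : z = 0 := by
  let b := Module.Free.chooseBasis ℤ A
  apply (b.baseChange (ZMod N)).repr.injective
  ext i
  rw [map_zero, Finsupp.zero_apply]
  apply red_zmod hN
  intro p k hp hk
  rw [← red_repr b, h p k hp hk, map_zero, Finsupp.zero_apply]

theorem p_red : S_red := by
  intro G Λ _ _ Φ A _ _ _ ρ₀ r hr l t ht S _ _ h
  classical
  have hN : Nat.card S ≠ 0 := Nat.card_pos.ne'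
  set N : ℕ := Nat.card S with hNdef
  haveI : NeZero N := ⟨hN⟩
  have hdvd : ringChar S ∣ N := by
    rw [← ringChar.spec, hNdef]
    haveI := Fintype.ofFinite S
    rw [Nat.card_eq_fintype_card]
    exact Nat.cast_card_eq_zero S
  let c : ZMod N →+* S := ZMod.castHom hdvd S
  have key : tr (Φ.toFun _ (rA (ZMod N) ρ₀) l) = ia (ZMod N) A t := by
    rw [← sub_eq_zero]
    apply red_AT hN
    intro p k hp hk
    haveI : Fact p.Prime := ⟨hp⟩
    haveI : NeZero (p ^ k) := ⟨pow_ne_zero _ hp.ne_zero⟩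
    rw [map_sub, sub_eq_zero, TM_ia_apply, ← tr_map, ← MonoidHom.comp_apply, ← Φ.nat, map_rA,
      ← hr p k, MonoidHom.comp_apply, tr_map, ht p, TM_ia_apply]
  have e : (SLm h).comp ρ₀ = (SLm (jj c h)).comp (rA (ZMod N) ρ₀) := (jj_rA c h ρ₀).symm
  rw [e, Φ.nat, MonoidHom.comp_apply, tr_map, key, jj_ia_apply]

end

end Pool.Agent.F8.NG.T
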