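import Pool.Agent.Lib.MP_305fdd_al.F8.NG.T.StmA

set_option autoImplicit false

/-! The piece `sep`: the homomorphisms to `Fl p` separate the elements of `ℤ_p ⊗ A`. -/

namespace Pool.Agent.F8.NG.T

open Pool.Agent.MP_305fdd_al Pool.Agent.Lib.MP_305fdd_al Pool.Agent.F2X Pool.Agent.F8 Pool.Agent.F8.HN
open scoped nonZeroDivisors TensorProduct

private theorem sep_inj (p : ℕ) [Fact p.Prime] : Function.Injective (iz p) := by
  unfold iz
  rw [RingHom.coe_comp]
  refine Function.Injective.comp (algebraMap ℚ_[p] (Fl p)).injective ?_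
  intro a b h
  exact Subtype.ext h

/-- an invertible matrix of embeddings -/
private theorem sep_mat (A : Type) [CommRing A] [IsDomain A] [Module.Free ℤ A]
    [Module.Finite ℤ A] (hd : ∀ x : A, x ≠ 0 → ∃ (y : A) (N : ℤ), N ≠ 0 ∧ x * y = N)
    (E : Type) [Field E] [Algebra A E] [IsFractionRing A E]
    {ι : Type} [Fintype ι] [DecidableEq ι] (b : Module.Basis ι ℤ A) (K : Type) [Field K]
    [IsAlgClosed K] [CharZero K] :
    ∃ j : ι → (A →+* K), (Matrix.of fun i k => j k (b i)).det ≠ 0 := by
  have hinj : Function.Injective (algebraMap ℤ A) := FaithfulSMul.algebraMap_injective ℤ A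
  have hch : CharZero A := ⟨fun m n h => by
    have h1 : algebraMap ℤ A (m : ℤ) = algebraMap ℤ A (n : ℤ) := by
      rw [eq_intCast, eq_intCast]
      push_cast
      exact h
    exact_mod_cast hinj h1⟩
  have hchE : CharZero E :=
    charZero_of_injective_algebraMap (IsFractionRing.injective A E)
  have hloc : IsLocalization (Algebra.algebraMapSubmonoid A ℤ⁰) E := by
    refine ⟨?_, ?_, ?_⟩
    · rintro ⟨y, ⟨n, hn, rfl⟩⟩
      refine IsUnit.mk0 _ ?_
      rw [Ne, FaithfulSMul.algebraMap_eq_zero_iff]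
      simpa using nonZeroDivisors.ne_zero hn
    · intro z
      obtain ⟨a, s, hs, rfl⟩ := IsFractionRing.div_surjective (A := A) z
      obtain ⟨s', N, hN, hsN⟩ := hd s (nonZeroDivisors.ne_zero hs)
      refine ⟨(a * s', ⟨(N : A), ⟨N, mem_nonZeroDivisors_of_ne_zero hN, by simp⟩⟩), ?_⟩
      have hs0 : algebraMap A E s ≠ 0 := by
        rw [Ne, FaithfulSMul.algebraMap_eq_zero_iff]
        exact nonZeroDivisors.ne_zero hs
      simp only
      rw [← hsN, map_mul, map_mul]
      field_simp
    · intro x y h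
      exact ⟨1, by rw [IsFractionRing.injective A E h]⟩
  let B : Module.Basis ι ℚ E :=
    b.localizationLocalization ℚ ℤ⁰ E
  have hB : ∀ i, B i = algebraMap A E (b i) := fun i =>
    b.localizationLocalization_apply ℚ ℤ⁰ E i
  have hfin : Module.Finite ℚ E := Module.Finite.of_basis B
  have hcard : Fintype.card ι = Fintype.card (E →ₐ[ℚ] K) := by
    rw [AlgHom.card, Module.finrank_eq_card_basis B]
  let e : ι ≃ (E →ₐ[ℚ] K) := Fintype.equivOfCardEq hcard
  refine ⟨fun k => (e k).toRingHom.comp (algebraMap A E), ?_⟩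
  have h1 := Algebra.discr_eq_det_embeddingsMatrixReindex_pow_two ℚ K (b := B) e
  have h2 := Algebra.discr_not_zero_of_basis ℚ B
  have h3 : (Matrix.of fun i k => (e k).toRingHom.comp (algebraMap A E) (b i)) =
      Algebra.embeddingsMatrixReindex ℚ K B e := by
    ext i k
    have h4 : Algebra.embeddingsMatrixReindex ℚ K B e i k = e k (B i) := by
      simp [Algebra.embeddingsMatrixReindex, Algebra.embeddingsMatrix]
    rw [h4, hB]
    rfl
  rw [h3]
  intro h0
  rw [h0] at h1
  have h5 : algebraMap ℚ K (Algebra.discr ℚ B) = 0 := by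
    rw [h1]
    simp
  exact h2 ((map_eq_zero _).1 h5)

theorem p_sep (hji : S_ji) : S_sep := by
  classical
  intro A _ _ _ _ p _ y hy
  let b := Module.Free.chooseBasis ℤ A
  have hd := (hji A).2
  obtain ⟨j, hj⟩ := sep_mat A hd (FractionRing A) b (Fl p)
  let C : Module.Basis (Module.Free.ChooseBasisIndex ℤ A) ℤ_[p] (AT ℤ_[p] A) :=
    Algebra.TensorProduct.basis ℤ_[p] b
  have hC : ∀ i, C i = (1 : ℤ_[p]) ⊗ₜ[ℤ] b i := fun i => Algebra.TensorProduct.basis_apply b i
  have hy1 : y = ∑ i, (C.repr y i) • C i := (C.sum_repr y).symm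
  have hval : ∀ k, jj (iz p) (j k) y = ∑ i, iz p (C.repr y i) * j k (b i) := by
    intro k
    conv_lhs => rw [hy1]
    rw [map_sum]
    refine Finset.sum_congr rfl fun i _ => ?_
    rw [hC, TensorProduct.smul_tmul', smul_eq_mul, mul_one, jj_tmul]
  have hv : (fun i => iz p (C.repr y i)) = 0 := by
    refine Matrix.eq_zero_of_vecMul_eq_zero hj ?_
    ext k
    have h1 := hval k
    rw [hy (j k)] at h1
    rw [Matrix.vecMul, dotProduct, Pi.zero_apply]
    exact h1.symm
  have hc : ∀ i, C.repr y i = 0 := by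
    intro i
    apply sep_inj p
    rw [map_zero]
    exact congrFun hv i
  rw [hy1]
  refine Finset.sum_eq_zero fun i _ => ?_
  rw [hc i, zero_smul]

end Pool.Agent.F8.NG.T
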