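import Pool.Agent.Lib.MP_305fdd_al.F8.NG.T.Stm
import Pool.Agent.Lib.MP_305fdd_al.F8.P.mp

set_option autoImplicit false

/-!
# MP_305fdd_al, transfer: piece [T irp]
-/

namespace Pool.Agent.F8.NG.T

open Pool.Agent.MP_305fdd_al Pool.Agent.Lib.MP_305fdd_al Pool.Agent.F2X Pool.Agent.F8
  Pool.Agent.F8.HN
open scoped TensorProduct

noncomputable section

/-- lifting elements of the fibre to the kernel of `nL` -/
private theorem irp_lift (a : MulAut F) (n : ℕ) (Λ : Type) [Group Λ] (Φ : NatBij (GP a n) Λ)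
    (nL : Λ →* Multiplicative ℤ) (hsurj : Function.Surjective nL) (hcm : CmG Φ (nP a n) nL)
    (Q : Type) [Group Q] [Finite Q] (θ : GP a n →* Q) (w : F) :
    ∃ l ∈ nL.ker, Φ.toFun Q θ l = θ (iP a n w) := by
  have hM : NeZero (Nat.card Q) := ⟨Nat.card_pos.ne'⟩
  obtain ⟨l, hl1, hl2⟩ := (pf_mp (GP a n) Λ Φ Q (Multiplicative (ZMod (Nat.card Q))) θ
    ((redZ (Nat.card Q)).comp (nP a n))).1 (iP a n w)
  rw [hcm (Nat.card Q)] at hl2
  have h1 : redZ (Nat.card Q) (nL l) = 1 := by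
    have : ((redZ (Nat.card Q)).comp nL) l = redZ (Nat.card Q) (nP a n (iP a n w)) := hl2
    rw [nA_iA, map_one] at this
    exact this
  have h2 : ((Multiplicative.toAdd (nL l) : ℤ) : ZMod (Nat.card Q)) = 0 := h1
  obtain ⟨j, hj⟩ := (ZMod.intCast_zmod_eq_zero_iff_dvd _ _).1 h2
  obtain ⟨t0, ht0⟩ := hsurj (Multiplicative.ofAdd 1)
  refine ⟨l * t0 ^ (-(Multiplicative.toAdd (nL l))), ?_, ?_⟩
  · rw [MonoidHom.mem_ker, map_mul, map_zpow, ht0, ← ofAdd_zsmul]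
    apply Multiplicative.toAdd.injective
    rw [toAdd_mul, toAdd_ofAdd, toAdd_one, smul_eq_mul]
    ring
  · have h3 : Φ.toFun Q θ t0 ^ (Nat.card Q) = 1 := pow_card_eq_one'
    rw [map_mul, map_zpow, hj, hl1, zpow_neg, zpow_mul, zpow_natCast, h3, one_zpow, inv_one, mul_one]

/-- the coordinates of `TM A f x` -/
private theorem irp_coord {A : Type} [CommRing A] {ι : Type} (b : Module.Basis ι ℤ A)
    {R S : Type} [CommRing R] [CommRing S] (f : R →+* S) (x : AT R A) (i : ι) :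
    (Algebra.TensorProduct.basis S b).repr (TM A f x) i =
      f ((Algebra.TensorProduct.basis R b).repr x i) := by
  induction x using TensorProduct.induction_on with
  | zero => simp
  | tmul r a =>
    rw [TM_tmul, Algebra.TensorProduct.basis_repr_tmul, Algebra.TensorProduct.basis_repr_tmul]
    simp
  | add x y hx hy => rw [map_add, map_add, map_add, Finsupp.add_apply, Finsupp.add_apply,
      map_add, hx, hy]

/-- the kernel of the reduction -/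
private theorem irp_ker (A : Type) [CommRing A] [Module.Free ℤ A] [Module.Finite ℤ A] (p : ℕ)
    [Fact p.Prime] (k : ℕ) (x : AT ℤ_[p] A) (hx : TM A (PadicInt.toZModPow k) x = 0) :
    ∃ y : AT ℤ_[p] A, x = ir ℤ_[p] A ((p : ℤ_[p]) ^ k) * y := by
  let b := Module.Free.chooseBasis ℤ A
  have hc : ∀ i, ∃ y : ℤ_[p], (Algebra.TensorProduct.basis ℤ_[p] b).repr x i =
      (p : ℤ_[p]) ^ k * y := by
    intro i
    have h1 := irp_coord b (PadicInt.toZModPow k) x i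
    rw [hx, map_zero, Finsupp.zero_apply] at h1
    have h2 : (Algebra.TensorProduct.basis ℤ_[p] b).repr x i ∈
        RingHom.ker (PadicInt.toZModPow k : ℤ_[p] →+* ZMod (p ^ k)) := h1.symm
    rw [PadicInt.ker_toZModPow, Ideal.mem_span_singleton] at h2
    exact h2
  choose y hy using hc
  refine ⟨(Algebra.TensorProduct.basis ℤ_[p] b).equivFun.symm y, ?_⟩
  have h3 : ir ℤ_[p] A ((p : ℤ_[p]) ^ k) * (Algebra.TensorProduct.basis ℤ_[p] b).equivFun.symm y =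
      ((p : ℤ_[p]) ^ k) • (Algebra.TensorProduct.basis ℤ_[p] b).equivFun.symm y :=
    (Algebra.smul_def ((p : ℤ_[p]) ^ k)
      ((Algebra.TensorProduct.basis ℤ_[p] b).equivFun.symm y : AT ℤ_[p] A)).symm
  rw [h3]
  apply (Algebra.TensorProduct.basis ℤ_[p] b).equivFun.injective
  rw [map_smul, LinearEquiv.apply_symm_apply]
  funext i
  rw [Module.Basis.equivFun_apply, hy i]
  rfl

/-- integrality of the values -/
private theorem irp_int (A : Type) [CommRing A] [Module.Free ℤ A] [Module.Finite ℤ A] (p : ℕ)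
    [Fact p.Prime] (j : A →+* Fl p) (y : AT ℤ_[p] A) :
    (iz p).IsIntegralElem (jj (iz p) j y) := by
  obtain ⟨P, hP, hy⟩ := Algebra.IsIntegral.isIntegral (R := ℤ_[p]) y
  refine ⟨P, hP, ?_⟩
  have h1 := congrArg (jj (iz p) j) hy
  rw [Polynomial.hom_eval₂, map_zero] at h1
  have h2 : (jj (iz p) j).comp (algebraMap ℤ_[p] (AT ℤ_[p] A)) = iz p := jj_ir (iz p) j
  rw [h2] at h1
  exact h1

/-- an integer which is `p ^ k` times an integral element -/
private theorem irp_dvd (p : ℕ) [Fact p.Prime] (k : ℕ) (N : ℤ) (η : Fl p)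
    (hη : (iz p).IsIntegralElem η) (h : (N : Fl p) = iz p ((p : ℤ_[p]) ^ k) * η) :
    ((p ^ k : ℕ) : ℤ) ∣ N := by
  have hp0 : (p : ℚ_[p]) ≠ 0 := by
    exact_mod_cast (Fact.out (p := p.Prime)).ne_zero
  have hpk : ((p : ℚ_[p]) ^ k) ≠ 0 := pow_ne_zero _ hp0
  have h1 : η = algebraMap ℚ_[p] (Fl p) ((N : ℚ_[p]) / (p : ℚ_[p]) ^ k) := by
    have h2 : iz p ((p : ℤ_[p]) ^ k) = algebraMap ℚ_[p] (Fl p) ((p : ℚ_[p]) ^ k) := by
      show algebraMap ℚ_[p] (Fl p) (((p : ℤ_[p]) ^ k : ℤ_[p]) : ℚ_[p]) = _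
      push_cast
      rfl
    rw [h2] at h
    rw [map_div₀, map_intCast, h, mul_div_assoc, mul_comm, div_mul_cancel₀]
    rw [map_ne_zero]
    exact hpk
  have h3 : IsIntegral ℤ_[p] ((N : ℚ_[p]) / (p : ℚ_[p]) ^ k) := by
    obtain ⟨P, hP, h4⟩ := hη
    refine ⟨P, hP, ?_⟩
    apply (algebraMap ℚ_[p] (Fl p)).injective
    rw [Polynomial.hom_eval₂, map_zero, ← h1]
    exact h4
  obtain ⟨z, hz⟩ := IsIntegrallyClosed.isIntegral_iff.1 h3
  have h5 : (N : ℤ_[p]) = (p : ℤ_[p]) ^ k * z := by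
    apply Subtype.coe_injective
    have h6 : ((z : ℤ_[p]) : ℚ_[p]) = (N : ℚ_[p]) / (p : ℚ_[p]) ^ k := hz
    push_cast
    rw [h6, mul_div_cancel₀]
    exact hpk
  have h7 : ((N : ℤ) : ZMod (p ^ k)) = 0 := by
    have h8 : (N : ℤ_[p]) ∈ RingHom.ker (PadicInt.toZModPow k : ℤ_[p] →+* ZMod (p ^ k)) := by
      rw [PadicInt.ker_toZModPow, Ideal.mem_span_singleton]
      exact ⟨z, h5⟩
    rw [RingHom.mem_ker, map_intCast] at h8
    exact h8
  exact (ZMod.intCast_zmod_eq_zero_iff_dvd _ _).1 h7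

theorem p_irp (hji : S_ji) : S_irp := by
  intro a n Λ _ Φ nL hsurj hcm A _ _ _ _ ρ₀ hI p _ r hr j
  obtain ⟨u, v, huv⟩ := hI
  have hδ : tr (ρ₀ (iP a n (u * v * u⁻¹ * v⁻¹))) - 2 ≠ 0 := sub_ne_zero.2 huv
  obtain ⟨δ', N, hN, hδN⟩ := (hji A).2 _ hδ
  have hp2 : 1 < p := (Fact.out (p := p.Prime)).one_lt
  set k : ℕ := N.natAbs with hk
  have hkp : N.natAbs < p ^ k := Nat.lt_pow_self hp2
  obtain ⟨l, hl0, hl⟩ := irp_lift a n Λ Φ nL hsurj hcm _ (rA (ZMod (p ^ k)) ρ₀) u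
  obtain ⟨l', hl0', hl'⟩ := irp_lift a n Λ Φ nL hsurj hcm _ (rA (ZMod (p ^ k)) ρ₀) v
  refine ⟨⟨l, hl0⟩, ⟨l', hl0'⟩, ?_⟩
  show tr (SLm (jj (iz p) j) (r (l * l' * l⁻¹ * l'⁻¹))) ≠ 2
  intro h8
  rw [tr_map] at h8
  have h1 : TM A (PadicInt.toZModPow k) (tr (r (l * l' * l⁻¹ * l'⁻¹)) - 2) =
      ia (ZMod (p ^ k)) A (tr (ρ₀ (iP a n (u * v * u⁻¹ * v⁻¹))) - 2) := by
    rw [map_sub, ← tr_map, map_ofNat, map_sub, map_ofNat, ← tr_map]
    congr 2
    have h3 := DFunLike.congr_fun (hr k) (l * l' * l⁻¹ * l'⁻¹)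
    rw [MonoidHom.comp_apply] at h3
    rw [h3]
    simp only [map_mul, map_inv, hl, hl']
    rfl
  have h2 : TM A (PadicInt.toZModPow k)
      ((tr (r (l * l' * l⁻¹ * l'⁻¹)) - 2) * ia ℤ_[p] A δ' - (N : AT ℤ_[p] A)) = 0 := by
    rw [map_sub, map_mul, h1, TM_ia_apply, ← map_mul, hδN, map_intCast, map_intCast, sub_self]
  obtain ⟨y, hy⟩ := irp_ker A p k _ h2
  have h3 := congrArg (jj (iz p) j) hy
  rw [map_sub, map_mul, map_sub, h8, map_ofNat, sub_self, zero_mul, map_intCast, zero_sub,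
    map_mul, jj_ir_apply] at h3
  have h4 : (((-N : ℤ)) : Fl p) = iz p ((p : ℤ_[p]) ^ k) * jj (iz p) j y := by
    rw [Int.cast_neg, h3]
  have h5 := irp_dvd p k (-N) _ (irp_int A p j y) h4
  rw [dvd_neg] at h5
  have h6 := Int.natAbs_dvd_natAbs.2 h5
  rw [Int.natAbs_natCast] at h6
  have h7 := Nat.le_of_dvd (Int.natAbs_pos.2 hN) h6
  omega

end

end Pool.Agent.F8.NG.T
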