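import Pool.Agent.Lib.MP_305fdd_al.F8.NG.T.StmA

set_option autoImplicit false

/-!
# MP_305fdd_al, transfer: pieces [T ji] and [T exj]
-/

namespace Pool.Agent.F8.NG.T

open Pool.Agent.MP_305fdd_al Pool.Agent.Lib.MP_305fdd_al Pool.Agent.F2X Pool.Agent.F8
  Pool.Agent.F8.HN
open scoped TensorProduct

noncomputable section

theorem p_ji : S_ji := by
  intro A _ _ _ _
  have h2 : ∀ x : A, x ≠ 0 → ∃ (y : A) (N : ℤ), N ≠ 0 ∧ x * y = N := by
    intro x hx
    have h1 := Ideal.comap_ne_bot_of_integral_mem (R := ℤ) hx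
      (Ideal.mem_span_singleton_self x) (Algebra.IsIntegral.isIntegral x)
    obtain ⟨N, hN, hN0⟩ := Submodule.exists_mem_ne_zero_of_ne_bot h1
    rw [Ideal.mem_comap, Ideal.mem_span_singleton] at hN
    obtain ⟨y, hy⟩ := hN
    refine ⟨y, N, hN0, ?_⟩
    rw [← hy]
    simp
  refine ⟨?_, h2⟩
  intro K _ _ j
  rw [injective_iff_map_eq_zero]
  intro x hx
  by_contra hx0
  obtain ⟨y, N, hN, hxy⟩ := h2 x hx0
  have h3 := congrArg j hxy
  rw [map_mul, hx, zero_mul, map_intCast] at h3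
  exact hN (Int.cast_eq_zero.1 h3.symm)

theorem p_exj : S_exj := by
  intro A _ _ _ _ p _
  exact ⟨(IsAlgClosed.lift (R := ℤ) (S := A) (M := Fl p)).toRingHom, trivial⟩

end

end Pool.Agent.F8.NG.T
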