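import Pool.Agent.Lib.MP_305fdd_al.F8.NG.T.Stm

set_option autoImplicit false

/-! The piece `pe2`: the matched affine representation over `Fl p`. -/

namespace Pool.Agent.F8.NG.T

open Pool.Agent.MP_305fdd_al Pool.Agent.Lib.MP_305fdd_al Pool.Agent.F2X Pool.Agent.F8 Pool.Agent.F8.HN

/-- a root of `t² - s t + 1`, `s` integral -/
private theorem pe2_quad {A B : Type} [CommRing A] [CommRing B] (f : A →+* B) {s t : B}
    (hs : f.IsIntegralElem s) (ht : t * t - s * t + 1 = 0) : f.IsIntegralElem t := by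
  letI := f.toAlgebra
  have hs' : IsIntegral A s := hs
  have h1 : IsIntegral (integralClosure A B) t := by
    refine ⟨Polynomial.X ^ 2 + (-(Polynomial.C (⟨s, hs'⟩ : integralClosure A B)) * Polynomial.X +
      1), ?_, ?_⟩
    · apply Polynomial.monic_X_pow_add
      compute_degree
      norm_num
    · simp only [Polynomial.eval₂_add, Polynomial.eval₂_mul, Polynomial.eval₂_neg,
        Polynomial.eval₂_C, Polynomial.eval₂_X, Polynomial.eval₂_one, Polynomial.eval₂_pow]
      have h2 : algebraMap (integralClosure A B) B ⟨s, hs'⟩ = s := rfl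
      rw [h2]
      linear_combination ht
  exact isIntegral_trans t h1

private theorem pe2_unit {A B : Type} [CommRing A] [CommRing B] (f : A →+* B) {u : B} {n : ℕ}
    (hn : 0 < n) (hu : u ^ n = 1) : f.IsIntegralElem u := by
  refine ⟨Polynomial.X ^ n - 1, ?_, ?_⟩
  · exact Polynomial.monic_X_pow_sub_C (1 : A) hn.ne'
  · simp [hu]

private theorem pe2_zpow {A B : Type} [CommRing A] [CommRing B] (f : A →+* B) (t : Bˣ)
    (h1 : f.IsIntegralElem t.val) (h2 : f.IsIntegralElem (t⁻¹).val) (n : ℤ) :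
    f.IsIntegralElem (t ^ n).val := by
  letI := f.toAlgebra
  have h1' : IsIntegral A t.val := h1
  have h2' : IsIntegral A (t⁻¹).val := h2
  cases n with
  | ofNat k =>
    rw [Int.ofNat_eq_natCast, zpow_natCast, Units.val_pow_eq_pow_val]
    exact h1'.pow k
  | negSucc k =>
    rw [zpow_negSucc, ← inv_pow, Units.val_pow_eq_pow_val]
    exact h2'.pow (k + 1)

private theorem pe2_sum {A B : Type} [CommRing A] [CommRing B] (f : A →+* B) {ι : Type}
    (l : List ι) (g : ι → B) (h : ∀ i, f.IsIntegralElem (g i)) :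
    f.IsIntegralElem ((l.map g).sum) := by
  induction l with
  | nil => simpa using f.isIntegralElem_zero
  | cons a l ih =>
    rw [List.map_cons, List.sum_cons]
    exact RingHom.IsIntegralElem.add f (h a) ih

/-- the images of the elements of `A` are integral -/
private theorem pe2_int (p : ℕ) [Fact p.Prime] {A : Type} [CommRing A] [Module.Finite ℤ A]
    (j : A →+* Fl p) (a : A) : (iz p).IsIntegralElem (j a) := by
  have h0 : IsIntegral ℤ a := IsIntegral.of_finite ℤ a
  obtain ⟨f, hf, hf0⟩ := h0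
  refine ⟨f.map (Int.castRingHom ℤ_[p]), hf.map _, ?_⟩
  rw [Polynomial.eval₂_map]
  have h1 : (iz p).comp (Int.castRingHom ℤ_[p]) = j.comp (algebraMap ℤ A) :=
    RingHom.ext_int _ _
  rw [h1, ← Polynomial.hom_eval₂, hf0, map_zero]

private theorem pe2_inj (p : ℕ) [Fact p.Prime] : Function.Injective (iz p) := by
  unfold iz
  rw [RingHom.coe_comp]
  refine Function.Injective.comp (algebraMap ℚ_[p] (Fl p)).injective ?_
  intro a b h
  exact Subtype.ext h

/-- a homomorphism with values in the range of an injective one -/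
private theorem pe2_fac {A R K : Type} [CommRing A] [CommRing R] [CommRing K] (ι : R →+* K)
    (hι : Function.Injective ι) (j : A →+* K) (h : ∀ a, ∃ y, ι y = j a) :
    ∃ j' : A →+* R, ι.comp j' = j := by
  choose y hy using h
  refine ⟨{ toFun := y, map_one' := ?_, map_mul' := ?_, map_zero' := ?_, map_add' := ?_ }, ?_⟩
  · apply hι
    rw [hy, map_one, map_one]
  · intro a b
    apply hι
    rw [map_mul, hy, hy, hy, map_mul]
  · apply hι
    rw [hy, map_zero, map_zero]
  · intro a b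
    apply hι
    rw [map_add, hy, hy, hy, map_add]
  · ext1 a
    exact hy a

theorem p_pe2 (hpe : S_pe) (hlft : S_lft) (hWsc : Pool.Agent.F8.S_Wsc)
    (hwm : Pool.Agent.F8.S_wm) : S_pe2 := by
  intro p _ V α L _ Ψ nL hcm A _ _ ρ₀ r hr j μ _ _ x β τ hτ hex
  obtain ⟨Θ, hm, ht, hNC⟩ := hex
  -- integrality
  have hji : ∀ a : A, (iz p).IsIntegralElem (j a) := pe2_int p j
  have hent : ∀ (g : GA α) (i k : Fin 2),
      (iz p).IsIntegralElem ((((SLm j).comp ρ₀) g).val i k) := by
    intro g i k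
    have h1 : (((SLm j).comp ρ₀) g).val i k = j ((ρ₀ g).val i k) := rfl
    rw [h1]
    exact hji _
  have hβi : ∀ u : μ, (iz p).IsIntegralElem (β u).val := by
    intro u
    refine pe2_unit (iz p) (n := Nat.card μ) Nat.card_pos ?_
    rw [← Units.val_pow_eq_pow_val, ← map_pow, pow_card_eq_one', map_one, Units.val_one]
  have htr : ∀ g : GA α, (iz p).IsIntegralElem (tr (((SLm j).comp ρ₀) g)) := by
    intro g
    rw [tr_eq]
    exact RingHom.IsIntegralElem.add _ (hent g 0 0) (hent g 1 1)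
  have hsi : (iz p).IsIntegralElem (sT V ((SLm j).comp ρ₀) (β.comp x)) := by
    unfold sT
    refine RingHom.IsIntegralElem.sub _ (pe2_sum _ _ _ fun v => ?_) (htr _)
    exact RingHom.IsIntegralElem.mul _ (hβi _) (htr _)
  have hτi : (iz p).IsIntegralElem τ.val := pe2_quad (iz p) hsi hτ
  have hτ' : (τ⁻¹).val = sT V ((SLm j).comp ρ₀) (β.comp x) - τ.val := by
    have h1 : τ.val * (sT V ((SLm j).comp ρ₀) (β.comp x) - τ.val) = 1 := by
      linear_combination -hτ
    calc (τ⁻¹).val = (τ⁻¹).val * (τ.val * (sT V ((SLm j).comp ρ₀) (β.comp x) - τ.val)) := by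
          rw [h1, mul_one]
      _ = _ := by rw [← mul_assoc, Units.inv_mul, one_mul]
  have hτi' : (iz p).IsIntegralElem (τ⁻¹).val := by
    rw [hτ']
    exact RingHom.IsIntegralElem.sub _ hsi hτi
  have ht' : ∀ g, (Θ g).t = β (x g) * τ ^ (Multiplicative.toAdd (nA α g)) := fun g =>
    DFunLike.congr_fun ht g
  have hti : ∀ g, (iz p).IsIntegralElem (Θ g).t.val := by
    intro g
    rw [ht' g, Units.val_mul]
    exact RingHom.IsIntegralElem.mul _ (hβi _) (pe2_zpow _ τ hτi hτi' _)
  have hmi : ∀ g i k, (iz p).IsIntegralElem ((Θ g).m.val i k) := by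
    intro g i k
    have h1 : (Θ g).m = ((SLm j).comp ρ₀) g := DFunLike.congr_fun hm g
    rw [h1]
    exact hent g i k
  -- the elements
  obtain ⟨N, s, hs⟩ := Module.Finite.exists_fin (R := ℤ) (M := A)
  let z0 : Fin N ⊕ (Fin 2 ⊕ μ) → Fl p := Sum.elim (fun i => j (s i))
    (Sum.elim ![τ.val, (τ⁻¹).val] (fun u => (β u).val))
  have hz0 : ∀ s, (iz p).IsIntegralElem (z0 s) := by
    intro s
    rcases s with i | i | u
    · exact hji _
    · fin_cases i
      · exact hτi
      · exact hτi'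
    · exact hβi u
  let e : Fin N ⊕ (Fin 2 ⊕ μ) ≃ Fin (Nat.card (Fin N ⊕ (Fin 2 ⊕ μ))) := Finite.equivFin _
  obtain ⟨a, R, _, ι, f, Rk, _, π, q, fk, Θ', ha, hLR, hz, hΘ'⟩ :=
    hlft p α Θ (Nat.card (Fin N ⊕ (Fin 2 ⊕ μ))) (fun i => z0 (e.symm i)) hti hmi (fun i => hz0 _)
  have hz' : ∀ s, ∃ y, ι y = z0 s := by
    intro s
    obtain ⟨y, hy⟩ := hz (e s)
    exact ⟨y, by rw [hy, Equiv.symm_apply_apply]⟩
  have hι : Function.Injective ι := hLR.inj
  obtain ⟨j', hj'⟩ : ∃ j' : A →+* R, ι.comp j' = j := by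
    refine pe2_fac ι hι j fun b => ?_
    let S : AddSubgroup A := (ι.range.toAddSubgroup).comap j.toAddMonoidHom
    have hle : (⊤ : Submodule ℤ A) ≤ AddSubgroup.toIntSubmodule S := by
      rw [← hs, Submodule.span_le]
      rintro _ ⟨i, rfl⟩
      exact hz' (Sum.inl i)
    exact hle (Submodule.mem_top : b ∈ (⊤ : Submodule ℤ A))
  obtain ⟨t1, ht1⟩ : ∃ y, ι y = τ.val := hz' (Sum.inr (Sum.inl 0))
  obtain ⟨t2, ht2⟩ : ∃ y, ι y = (τ⁻¹).val := hz' (Sum.inr (Sum.inl 1))
  have hβy : ∀ u : μ, ∃ y, ι y = (β u).val := fun u => hz' (Sum.inr (Sum.inr u))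
  choose βy hβy using hβy
  let τ' : Rˣ := ⟨t1, t2, by
      apply hι; rw [map_mul, map_one, ht1, ht2, Units.mul_inv], by
      apply hι; rw [map_mul, map_one, ht1, ht2, Units.inv_mul]⟩
  let βu : μ → Rˣ := fun u => ⟨βy u, βy u⁻¹, by
      apply hι
      rw [map_mul, map_one, hβy, hβy, ← Units.val_mul, ← map_mul, mul_inv_cancel, map_one,
        Units.val_one], by
      apply hι
      rw [map_mul, map_one, hβy, hβy, ← Units.val_mul, ← map_mul, inv_mul_cancel, map_one,
        Units.val_one]⟩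
  have hβu : ∀ u, (βu u).val = βy u := fun u => rfl
  let β' : μ →* Rˣ :=
    { toFun := βu
      map_one' := by
        apply Units.ext
        apply hι
        rw [hβu, hβy, map_one, Units.val_one, Units.val_one, map_one]
      map_mul' := by
        intro u v
        apply Units.ext
        apply hι
        rw [Units.val_mul, map_mul, hβu, hβu, hβu, hβy, hβy, hβy, map_mul, Units.val_mul] }
  have hUι : Function.Injective (Units.map ι.toMonoidHom) := by
    intro u v huv
    apply Units.ext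
    apply hι
    exact congrArg Units.val huv
  have hβ' : (Units.map ι.toMonoidHom).comp β' = β := by
    ext u
    exact hβy u
  have hτ'' : Units.map ι.toMonoidHom τ' = τ := by
    apply Units.ext
    exact ht1
  have hpw : (Units.map ι.toMonoidHom).comp (pw τ') = pw τ := by
    ext1
    simp only [MonoidHom.comp_apply, pw_ofAdd, map_zpow, hτ'']
  have hSι : Function.Injective (SLm ι) := by
    intro A B hAB
    apply Subtype.ext
    ext i j
    apply hι
    have := congrArg (fun M : SL2 (Fl p) => M.val i j) hAB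
    exact this
  have hm0 := (hWsc (GA α) (Fl p) (iz p a) Θ (by
    intro h0
    exact ha (pe2_inj p (by rw [h0, map_zero]))))
  obtain ⟨hs1, hs2, hs3⟩ := hm0
  -- the matrix part
  have hmΘ' : Q2.mH.comp Θ' = (SLm j').comp ρ₀ := by
    have h1 : (SLm ι).comp (Q2.mH.comp Θ') = (SLm ι).comp ((SLm j').comp ρ₀) := by
      have h2 : (SLm ι).comp ((SLm j').comp ρ₀) = (SLm (ι.comp j')).comp ρ₀ := rfl
      rw [h2, hj', ← hm, ← hs2, ← hΘ']
      rfl
    ext1 g
    exact hSι (DFunLike.congr_fun h1 g)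
  have htΘ' : Q2.tH.comp Θ' = β'.comp x * (pw τ').comp (nA α) := by
    have h1 : (Units.map ι.toMonoidHom).comp (Q2.tH.comp Θ') =
        (Units.map ι.toMonoidHom).comp (β'.comp x * (pw τ').comp (nA α)) := by
      have h2 : (Units.map ι.toMonoidHom).comp (Q2.tH.comp Θ') =
          Q2.tH.comp ((Q2.map ι).comp Θ') := rfl
      rw [h2, hΘ', hs3, ht, ← hβ', ← hpw]
      ext1 g
      simp only [MonoidHom.comp_apply, MonoidHom.mul_apply, map_mul]
    ext1 g
    exact hUι (DFunLike.congr_fun h1 g)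
  have hNΘ' : NC Θ' := by
    obtain ⟨g, h, hgh⟩ := hs1 hNC
    refine ⟨g, h, fun h0 => hgh ?_⟩
    ext i
    have h1 := hwm R (Fl p) ι (Θ' g) (Θ' h) i
    have h2 : Q2.map ι (Θ' g) = scl (iz p a) Θ g := DFunLike.congr_fun hΘ' g
    have h3 : Q2.map ι (Θ' h) = scl (iz p a) Θ h := DFunLike.congr_fun hΘ' h
    rw [h2, h3] at h1
    rw [h1, h0, Pi.zero_apply, map_zero, Pi.zero_apply]
  obtain ⟨Θ2, hm2, ht2', hN2⟩ := hpe p (GA α) L Ψ (nA α) nL hcm A ρ₀ r hr R ι f Rk π q fk hLR
    j' μ x β' τ' Θ' hmΘ' htΘ' hNΘ'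
  refine ⟨(Q2.map ι).comp Θ2, ?_, ?_, ?_⟩
  · have h1 : Q2.mH.comp ((Q2.map ι).comp Θ2) = (SLm ι).comp (Q2.mH.comp Θ2) := rfl
    rw [h1, hm2]
    have h2 : ι.comp (jj f j') = jj (iz p) j := by
      rw [comp_jj, hj', hLR.cf]
    rw [← h2]
    rfl
  · have h2 : Q2.tH.comp ((Q2.map ι).comp Θ2) =
        (Units.map ι.toMonoidHom).comp (Q2.tH.comp Θ2) := rfl
    rw [h2, ht2', ← hβ', ← hpw]
    ext1 g
    simp only [MonoidHom.comp_apply, MonoidHom.mul_apply, map_mul]
  · obtain ⟨g, h, hgh⟩ := hN2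
    refine ⟨g, h, fun h0 => hgh ?_⟩
    ext i
    apply hι
    have h1 := hwm R (Fl p) ι (Θ2 g) (Θ2 h) i
    rw [← h1]
    have h3 := congrFun h0 i
    rw [Pi.zero_apply, map_zero]
    exact h3

end Pool.Agent.F8.NG.T
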