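import Pool.Agent.Lib.MP_305fdd_al.F8.NG.T.Stm

/-!
# MP_305fdd_al, transfer for positive monodromies: piece spc
-/

set_option autoImplicit false

namespace Pool.Agent.F8.NG.T

open Pool.Agent.MP_305fdd_al Pool.Agent.Lib.MP_305fdd_al Pool.Agent.F2X Pool.Agent.F8
  Pool.Agent.F8.HN

/-- restriction of the data along a split projection -/
theorem spc_SpR {K k : Type} [Field K] [Field k] {R : Subring K} (π : R →+* k) {P G : Type}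
    [Group P] [Group G] (pr : P →* G) (inj : G →* P) (h : ∀ g, pr (inj g) = g)
    (T' : Set (P →* Q2 K)) (X' : Set K) (T : Set (G →* Q2 K)) (X : Set K)
    (hT : ∀ Θ ∈ T, Θ.comp pr ∈ T') (hX : X ⊆ X') (hS : SpR π T' X') : SpR π T X := by
  refine ⟨fun Θ hΘ => ?_, fun x hx => hS.mem x (hX hx), fun x hx hx' h0 =>
    hS.ne x hx (hX hx') h0⟩
  obtain ⟨Θ', h1⟩ := hS.hom _ (hT Θ hΘ)
  refine ⟨Θ'.comp inj, ?_⟩
  ext1 g
  have h2 := DFunLike.congr_fun h1 (inj g)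
  show Q2.map R.subtype (Θ' (inj g)) = Θ g
  have h3 : Q2.map R.subtype (Θ' (inj g)) = Θ (pr (inj g)) := h2
  rw [h3, h]

/-- the group of the data -/
abbrev spc_P {Λ : Type} [Group Λ] (nL : Λ →* Multiplicative ℤ) : Type :=
  Λ × (∀ (q : Fin 2 × Fin 3), LL nL q.1 q.2)

theorem spc_fg {Λ : Type} [Group Λ] [Group.FG Λ] (nL : Λ →* Multiplicative ℤ) :
    Group.FG (spc_P nL) := by
  have h : ∀ q : Fin 2 × Fin 3, Group.FG (LL nL q.1 q.2) := fun q => inferInstance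
  infer_instance

/-- the projection to the level `q` -/
def spc_pr {Λ : Type} [Group Λ] (nL : Λ →* Multiplicative ℤ) (q : Fin 2 × Fin 3) :
    spc_P nL →* LL nL q.1 q.2 :=
  (Pi.evalMonoidHom (fun q : Fin 2 × Fin 3 => LL nL q.1 q.2) q).comp (MonoidHom.snd _ _)

/-- the injection of the level `q` -/
def spc_in {Λ : Type} [Group Λ] (nL : Λ →* Multiplicative ℤ) (q : Fin 2 × Fin 3) :
    LL nL q.1 q.2 →* spc_P nL :=
  (MonoidHom.inr Λ (∀ q : Fin 2 × Fin 3, LL nL q.1 q.2)).comp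
    (MonoidHom.mulSingle (fun q : Fin 2 × Fin 3 => LL nL q.1 q.2) q)

theorem spc_pr_in {Λ : Type} [Group Λ] (nL : Λ →* Multiplicative ℤ) (q : Fin 2 × Fin 3)
    (g : LL nL q.1 q.2) : spc_pr nL q (spc_in nL q g) = g := by
  exact Pi.mulSingle_eq_same (M := fun q : Fin 2 × Fin 3 => LL nL q.1 q.2) q g

/-- specialisation of irreducibility -/
theorem spc_irr {K k : Type} [Field K] [Field k] {R : Subring K} (π : R →+* k) {P G : Type}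
    [Group P] [Group G] (T' : Set (P →* Q2 K)) (X' : Set K) (hS : SpR π T' X')
    (ρ : G →* SL2 K) (ρ' : G →* SL2 R) (hρ : (SLm R.subtype).comp ρ' = ρ) (u v : G)
    (huv : tr (ρ (u * v * u⁻¹ * v⁻¹)) ≠ 2) (hX : tr (ρ (u * v * u⁻¹ * v⁻¹)) - 2 ∈ X') :
    Irr ((SLm π).comp ρ') := by
  refine ⟨u, v, fun h0 => ?_⟩
  have hv : ((tr (ρ' (u * v * u⁻¹ * v⁻¹)) : R) : K) = tr (ρ (u * v * u⁻¹ * v⁻¹)) := by
    rw [← hρ]
    exact (tr_map R.subtype _).symm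
  have hv2 : ((tr (ρ' (u * v * u⁻¹ * v⁻¹)) - 2 : R) : K) =
      tr (ρ (u * v * u⁻¹ * v⁻¹)) - 2 := by
    rw [← hv]
    rfl
  have hmem : tr (ρ (u * v * u⁻¹ * v⁻¹)) - 2 ∈ R := by
    rw [← hv2]
    exact SetLike.coe_mem _
  have h2 := hS.ne _ hmem hX (fun h3 => huv (sub_eq_zero.1 h3))
  have h3 : (⟨tr (ρ (u * v * u⁻¹ * v⁻¹)) - 2, hmem⟩ : R) =
      tr (ρ' (u * v * u⁻¹ * v⁻¹)) - 2 := Subtype.ext hv2.symm
  apply h2
  have h4 : tr (SLm π (ρ' (u * v * u⁻¹ * v⁻¹))) = 2 := h0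
  rw [h3, map_sub, ← tr_map, h4, map_ofNat, sub_self]

/-- specialisation of `CN` for one representation -/
theorem spc_one (hspl : S_spl) {a : MulAut F} {n : ℕ} (V : Fin 2 → Fin 3 → List Bool)
    {Λ : Type} [Group Λ] (nL : Λ →* Multiplicative ℤ)
    (Ψ : ∀ (i : Fin 2) (m : Fin 3), NatBij (GP a (lv n i m)) (LL nL i m))
    {A : Type} [CommRing A] (ρ₀ : GP a n →* SL2 A) {K : Type} [Field K] (j : A →+* K)
    (ρ : Λ →* SL2 K) (hC : CN V nL Ψ ρ₀ j ρ) :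
    ∃ (T : Set (spc_P nL →* Q2 K)) (X : Set K), T.Finite ∧ X.Finite ∧
      ∀ (k : Type) [Field k] (R : Subring K) (π : R →+* k), SpR π T X →
      ∀ (j' : A →+* R) (ρ' : Λ →* SL2 R), R.subtype.comp j' = j →
      (SLm R.subtype).comp ρ' = ρ → CN V nL Ψ ρ₀ (π.comp j') ((SLm π).comp ρ') := by
  obtain ⟨⟨u, v, huv⟩, ⟨u', v', huv'⟩, hL⟩ := hC
  have h1 := fun q : Fin 2 × Fin 3 => hspl (V q.1 q.2) (a ^ lv n q.1 q.2) (LL nL q.1 q.2)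
    (Ψ q.1 q.2) (nl nL q.1 q.2) A (ρ₀.comp (ic a n q.1 q.2)) K j _ (hL q.1 q.2)
  choose T X hT hX h using h1
  refine ⟨⋃ q : Fin 2 × Fin 3, (fun Θ => Θ.comp (spc_pr nL q)) '' T q,
    {tr ((((SLm j).comp ρ₀).comp (iP a n)) (u * v * u⁻¹ * v⁻¹)) - 2,
      tr ((ρ.comp nL.ker.subtype) (u' * v' * u'⁻¹ * v'⁻¹)) - 2} ∪ ⋃ q : Fin 2 × Fin 3, X q,
    ?_, ?_, ?_⟩
  · exact Set.finite_iUnion fun q => (hT q).image _
  · exact (Set.toFinite _).union (Set.finite_iUnion hX)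
  intro k _ R π hS j' ρ' hww hρ
  refine ⟨?_, ?_, ?_⟩
  · exact spc_irr π _ _ hS (((SLm j).comp ρ₀).comp (iP a n)) (((SLm j').comp ρ₀).comp (iP a n))
      (by rw [← hww]; rfl) u v huv (Or.inl (Or.inl rfl))
  · exact spc_irr π _ _ hS (ρ.comp nL.ker.subtype) (ρ'.comp nL.ker.subtype)
      (by rw [← hρ]; rfl) u' v' huv' (Or.inl (Or.inr rfl))
  · intro i m
    have hS' : SpR π (T (i, m)) (X (i, m)) := by
      refine spc_SpR π (spc_pr nL (i, m)) (spc_in nL (i, m)) (spc_pr_in nL (i, m)) _ _ _ _ ?_ ?_ hS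
      · intro Θ hΘ
        exact Set.mem_iUnion.2 ⟨(i, m), Θ, hΘ, rfl⟩
      · intro x hx
        exact Or.inr (Set.mem_iUnion.2 ⟨(i, m), hx⟩)
    exact h (i, m) k R π hS' j' (ρ'.comp (il nL i m)) hww (by rw [← hρ]; rfl)

/-- specialisation of `CN`, two representations -/
theorem p_spc (hspl : S_spl) : S_spc := by
  intro a n V Λ _ _ nL Ψ A _ _ ρ₀ K _ j ρ₁ ρ₂ hC₁ hC₂ l
  obtain ⟨T₁, X₁, hT₁, hX₁, h₁⟩ := spc_one hspl V nL Ψ ρ₀ j ρ₁ hC₁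
  obtain ⟨T₂, X₂, hT₂, hX₂, h₂⟩ := spc_one hspl V nL Ψ ρ₀ j ρ₂ hC₂
  obtain ⟨s, hs⟩ : (⊤ : Submodule ℤ A).FG := Module.Finite.fg_top
  refine ⟨spc_P nL, inferInstance, spc_fg nL,
    {(q0 ρ₁).comp (MonoidHom.fst _ _), (q0 ρ₂).comp (MonoidHom.fst _ _)} ∪ (T₁ ∪ T₂),
    ({tr (ρ₁ l) - tr (ρ₂ l)} ∪ (fun y => j y) '' (s : Set A)) ∪ (X₁ ∪ X₂), ?_, ?_, ?_⟩
  · exact (Set.toFinite _).union (hT₁.union hT₂)
  · exact ((Set.finite_singleton _).union (s.finite_toSet.image _)).union (hX₁.union hX₂)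
  intro k _ R π hS
  have hjR : ∀ y, j y ∈ R := by
    intro y
    have hy : y ∈ Submodule.span ℤ (s : Set A) := by rw [hs]; trivial
    induction hy using Submodule.span_induction with
    | mem y hy => exact hS.mem _ (Or.inl (Or.inr ⟨y, hy, rfl⟩))
    | zero => rw [map_zero]; exact R.zero_mem
    | add y z _ _ h1 h2 => rw [map_add]; exact R.add_mem h1 h2
    | smul c y _ h1 => rw [map_zsmul]; exact R.zsmul_mem h1 c
  have hS₁ : SpR π T₁ X₁ := ⟨fun Θ hΘ => hS.hom Θ (Or.inr (Or.inl hΘ)),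
    fun x hx => hS.mem x (Or.inr (Or.inl hx)), fun x hx hx' h0 =>
      hS.ne x hx (Or.inr (Or.inl hx')) h0⟩
  have hS₂ : SpR π T₂ X₂ := ⟨fun Θ hΘ => hS.hom Θ (Or.inr (Or.inr hΘ)),
    fun x hx => hS.mem x (Or.inr (Or.inr hx)), fun x hx hx' h0 =>
      hS.ne x hx (Or.inr (Or.inr hx')) h0⟩
  have hex : ∀ ρ : Λ →* SL2 K, (q0 ρ).comp (MonoidHom.fst _ _) ∈
      ({(q0 ρ₁).comp (MonoidHom.fst _ _), (q0 ρ₂).comp (MonoidHom.fst _ _)} ∪ (T₁ ∪ T₂) :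
        Set (spc_P nL →* Q2 K)) → ∃ ρ' : Λ →* SL2 R, (SLm R.subtype).comp ρ' = ρ := by
    intro ρ hρ
    obtain ⟨Θ', h⟩ := hS.hom _ hρ
    refine ⟨(Q2.mH.comp Θ').comp (MonoidHom.inl _ _), ?_⟩
    ext1 g
    have h2 := congrArg Q2.m (DFunLike.congr_fun h (MonoidHom.inl _ _ g))
    exact h2
  obtain ⟨ρ₁', hρ₁⟩ := hex ρ₁ (Or.inl (Or.inl rfl))
  obtain ⟨ρ₂', hρ₂⟩ := hex ρ₂ (Or.inl (Or.inr rfl))
  have hj : R.subtype.comp (j.codRestrict R hjR) = j := RingHom.ext fun _ => rfl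
  refine ⟨π.comp (j.codRestrict R hjR), (SLm π).comp ρ₁', (SLm π).comp ρ₂',
    h₁ k R π hS₁ _ ρ₁' hj hρ₁, h₂ k R π hS₂ _ ρ₂' hj hρ₂, ?_⟩
  intro hne h0
  have e1 : ((tr (ρ₁' l) : R) : K) = tr (ρ₁ l) := by
    rw [← hρ₁]
    exact (tr_map R.subtype _).symm
  have e2 : ((tr (ρ₂' l) : R) : K) = tr (ρ₂ l) := by
    rw [← hρ₂]
    exact (tr_map R.subtype _).symm
  have e3 : ((tr (ρ₁' l) - tr (ρ₂' l) : R) : K) = tr (ρ₁ l) - tr (ρ₂ l) := by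
    rw [← e1, ← e2]
    rfl
  refine hS.ne _ (tr (ρ₁' l) - tr (ρ₂' l)).2 (Or.inl (Or.inl e3)) ?_ ?_
  · rw [e3]
    exact sub_ne_zero.2 hne
  · have h4 : tr (SLm π (ρ₁' l)) = tr (SLm π (ρ₂' l)) := h0
    show π (tr (ρ₁' l) - tr (ρ₂' l)) = 0
    rw [map_sub, ← tr_map, ← tr_map, h4, sub_self]

end Pool.Agent.F8.NG.T
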