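import Pool.Agent.Lib.MP_305fdd_al.F8.NG.T.Stm
import Pool.Agent.Lib.MP_305fdd_al.F8.P.wm

/-!
# MP_305fdd_al, transfer for positive monodromies: piece spl
-/

set_option autoImplicit false

namespace Pool.Agent.F8.NG.T

open Pool.Agent.MP_305fdd_al Pool.Agent.Lib.MP_305fdd_al Pool.Agent.F2X Pool.Agent.F8
  Pool.Agent.F8.HN

/-- base change of `SL₂` along an injective homomorphism is injective -/
theorem spl_inj {R K : Type} [CommRing R] [CommRing K] {f : R →+* K}
    (hf : Function.Injective f) : Function.Injective (SLm f) := by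
  intro a b h
  ext i j
  apply hf
  exact congrFun (congrFun (congrArg Subtype.val h) i) j

/-- base change of units along the inclusion of a subring is injective -/
theorem spl_uinj {K : Type} [Field K] (R : Subring K) :
    Function.Injective (Units.map R.subtype.toMonoidHom) :=
  Units.map_injective Subtype.val_injective

/-- powers under homomorphisms -/
theorem spl_pw {L : Type} [Group L] {A B : Type} [Group A] [Group B] (f : A →* B) (a : A)
    (n : L →* Multiplicative ℤ) (g : L) : f ((pw a).comp n g) = (pw (f a)).comp n g := by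
  show f (zpowersHom A a (n g)) = zpowersHom B (f a) (n g)
  rw [zpowersHom_apply, zpowersHom_apply, map_zpow]

/-- a unit of `K` with inverse in `R` -/
def spl_u {K : Type} [Field K] (R : Subring K) (u : Kˣ) (h : u.val ∈ R) (h' : (u⁻¹).val ∈ R) :
    Rˣ where
  val := ⟨u.val, h⟩
  inv := ⟨(u⁻¹).val, h'⟩
  val_inv := Subtype.ext (by
    show u.val * (u⁻¹).val = 1
    rw [Units.mul_inv])
  inv_val := Subtype.ext (by
    show (u⁻¹).val * u.val = 1
    rw [Units.inv_mul])

theorem spl_u_map {K : Type} [Field K] (R : Subring K) (u : Kˣ) (h : u.val ∈ R)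
    (h' : (u⁻¹).val ∈ R) : Units.map R.subtype.toMonoidHom (spl_u R u h h') = u :=
  Units.ext rfl

/-- a character with values in `R` -/
theorem spl_char {K : Type} [Field K] (R : Subring K) {μ : Type} [Group μ] (α : μ →* Kˣ)
    (h : ∀ z, (α z).val ∈ R) : ∃ α' : μ →* Rˣ, (Units.map R.subtype.toMonoidHom).comp α' = α := by
  have h' : ∀ z, ((α z)⁻¹).val ∈ R := fun z => by
    rw [← map_inv]
    exact h _
  refine ⟨⟨⟨fun z => spl_u R (α z) (h z) (h' z), ?_⟩, ?_⟩, ?_⟩
  · apply spl_uinj R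
    rw [spl_u_map, map_one, map_one]
  · intro y z
    apply spl_uinj R
    rw [spl_u_map, map_mul, map_mul, spl_u_map, spl_u_map]
  · ext1 z
    exact spl_u_map R _ _ _

/-- complete families over a subring -/
theorem spl_cpl {K : Type} [Field K] (R : Subring K) {α : MulAut F} {c : ℕ}
    (X : Fin c → (GA α →* Kˣ)) (X' : Fin c → (GA α →* Rˣ))
    (h : ∀ i, (Units.map R.subtype.toMonoidHom).comp (X' i) = X i)
    (hC : Cpl α X) : Cpl α X' := by
  have hv : ∀ i g, (((X' i g).val : R) : K) = (X i g).val := fun i g => by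
    rw [← h i]
    rfl
  refine ⟨fun i => ?_, fun h0 => ?_, fun w hw => ?_⟩
  · apply spl_uinj R
    rw [map_one, ← hC.t1 i, ← h i]
    rfl
  · apply hC.card
    have h1 := congrArg (Subtype.val : R → K) h0
    simpa using h1
  · apply Subtype.val_injective
    have h1 := hC.orth w hw
    simp only [← hv] at h1
    rw [AddSubmonoidClass.coe_finsetSum]
    exact h1

/-- specialisation of the condition at one level -/
theorem p_spl (htl : S_tl) (hsTm : S_sTm) : S_spl := by
  intro V α L _ Ψ nL A _ ρ₀ K _ jA ρ hLC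
  obtain ⟨c, μ, _, _, x, β, τ, hC, hE⟩ := hLC
  have hq := fun i => (hE i).1
  have hE' := fun i => (hE i).2
  choose Θ hm ht hN using hE'
  choose g h hgh using hN
  have hgh' : ∀ i, ∃ j, Q2.W (Θ i (g i)) (Θ i (h i)) j ≠ 0 := fun i => by
    by_contra hc
    push Not at hc
    exact hgh i (funext hc)
  choose j hj using hgh'
  refine ⟨Set.range Θ, {(c : K)} ∪ (Set.range (fun z => (β z).val) ∪
    (Set.range (fun i => (τ i).val) ∪ (Set.range (fun i => ((τ i)⁻¹).val) ∪
      Set.range (fun i => Q2.W (Θ i (g i)) (Θ i (h i)) (j i))))), Set.finite_range _, ?_, ?_⟩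
  · exact (Set.finite_singleton _).union ((Set.finite_range _).union ((Set.finite_range _).union
      ((Set.finite_range _).union (Set.finite_range _))))
  intro k _ R π hS j' ρ' hww hρ
  have hRi : Function.Injective R.subtype := Subtype.val_injective
  obtain ⟨β', hβ⟩ := spl_char R β fun z => hS.mem _ (Or.inr (Or.inl ⟨z, rfl⟩))
  have hτ1 : ∀ i, (τ i).val ∈ R := fun i => hS.mem _ (Or.inr (Or.inr (Or.inl ⟨i, rfl⟩)))
  have hτ2 : ∀ i, ((τ i)⁻¹).val ∈ R := fun i =>
    hS.mem _ (Or.inr (Or.inr (Or.inr (Or.inl ⟨i, rfl⟩))))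
  let τ' : Fin c → Rˣ := fun i => spl_u R (τ i) (hτ1 i) (hτ2 i)
  have hτ' : ∀ i, Units.map R.subtype.toMonoidHom (τ' i) = τ i := fun i => spl_u_map R _ _ _
  have hτv : ∀ i, (((τ' i).val : R) : K) = (τ i).val := fun i => rfl
  have hΘ : ∀ i, ∃ Θ' : L →* Q2 R, (Q2.map R.subtype).comp Θ' = Θ i := fun i =>
    hS.hom _ ⟨i, rfl⟩
  choose Θ' hΘ' using hΘ
  have hC' : Cpl α (fun i => β'.comp (x i)) := by
    apply spl_cpl R (fun i => β.comp (x i)) _ _ hC
    intro i
    rw [← hβ]
    rfl
  have hs : ∀ i, ((sT V ((SLm j').comp ρ₀) (β'.comp (x i)) : R) : K) =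
      sT V ((SLm jA).comp ρ₀) (β.comp (x i)) := by
    intro i
    have h1 := hsTm R K R.subtype V α ((SLm j').comp ρ₀) (β'.comp (x i))
    have h2 : (Units.map R.subtype.toMonoidHom).comp (β'.comp (x i)) = β.comp (x i) := by
      rw [← hβ]; rfl
    have h3 : (SLm R.subtype).comp ((SLm j').comp ρ₀) = (SLm jA).comp ρ₀ := by
      rw [← hww]; rfl
    rw [h2, h3] at h1
    exact h1.symm
  refine htl R k π V α L Ψ nL A ρ₀ j' ρ' c μ x β' τ' hC' ?_ ?_ ?_
  · intro h0
    have hc : (c : K) ∈ R := hS.mem _ (Or.inl rfl)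
    apply hS.ne (c : K) hc (Or.inl rfl) hC.card
    have h1 : (⟨(c : K), hc⟩ : R) = (c : R) := Subtype.ext (by simp)
    rw [h1, map_natCast]
    exact h0
  · intro i
    apply Subtype.val_injective
    have h1 := hq i
    show ((τ' i).val : K) * ((τ' i).val : K) -
      ((sT V ((SLm j').comp ρ₀) (β'.comp (x i)) : R) : K) * ((τ' i).val : K) + 1 = 0
    rw [hs, hτv]
    exact h1
  · intro i
    refine ⟨Θ' i, ?_, ?_, g i, h i, j i, ?_⟩
    · ext1 l
      apply spl_inj hRi
      have h1 : SLm R.subtype (ρ' l) = ρ l := DFunLike.congr_fun hρ l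
      have h2 : SLm R.subtype (Θ' i l).m = (Θ i l).m := by rw [← hΘ' i]; rfl
      have h3 : (Θ i l).m = ρ l := DFunLike.congr_fun (hm i) l
      show SLm R.subtype (Θ' i l).m = SLm R.subtype (ρ' l)
      rw [h1, h2, h3]
    · ext1 l
      apply spl_uinj R
      have h2 : Units.map R.subtype.toMonoidHom (Θ' i l).t = (Θ i l).t := by rw [← hΘ' i]; rfl
      have h3 : (Θ i l).t = (β.comp (Ψ.toFun μ (x i)) * (pw (τ i)).comp nL) l :=
        DFunLike.congr_fun (ht i) l
      show Units.map R.subtype.toMonoidHom (Θ' i l).t = _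
      rw [h2, h3, MonoidHom.mul_apply, MonoidHom.mul_apply, map_mul, spl_pw, hτ', ← hβ]
      rfl
    · have h1 : (Q2.W (Θ' i (g i)) (Θ' i (h i)) (j i) : R).val =
          Q2.W (Θ i (g i)) (Θ i (h i)) (j i) := by
        rw [← hΘ' i]
        exact (pf_wm R K R.subtype (Θ' i (g i)) (Θ' i (h i)) (j i)).symm
      have hmem : Q2.W (Θ i (g i)) (Θ i (h i)) (j i) ∈ R := by
        rw [← h1]
        exact SetLike.coe_mem _
      have h2 := hS.ne _ hmem (Or.inr (Or.inr (Or.inr (Or.inr ⟨i, rfl⟩)))) (hj i)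
      have h3 : (⟨Q2.W (Θ i (g i)) (Θ i (h i)) (j i), hmem⟩ : R) =
          Q2.W (Θ' i (g i)) (Θ' i (h i)) (j i) := Subtype.ext h1.symm
      rwa [h3] at h2

end Pool.Agent.F8.NG.T
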