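import Pool.Agent.Lib.MP_305fdd_al.F8.NG.T.Stm
import Pool.Agent.Lib.MP_305fdd_al.F8.P.wm

/-!
# MP_305fdd_al, transfer for positive monodromies: pieces tl, fct
-/

set_option autoImplicit false

namespace Pool.Agent.F8.NG.T

open Pool.Agent.MP_305fdd_al Pool.Agent.Lib.MP_305fdd_al Pool.Agent.F2X Pool.Agent.F8
  Pool.Agent.F8.HN

/-- powers under homomorphisms -/
theorem tl_pw {L : Type} [Group L] {A B : Type} [Group A] [Group B] (f : A →* B) (a : A)
    (n : L →* Multiplicative ℤ) (g : L) : f ((pw a).comp n g) = (pw (f a)).comp n g := by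
  show f (zpowersHom A a (n g)) = zpowersHom B (f a) (n g)
  rw [zpowersHom_apply, zpowersHom_apply, map_zpow]

/-- transport of the condition at one level -/
theorem p_tl (hsTm : S_sTm) : S_tl := by
  intro R S _ _ f V α L _ Ψ nL A _ ρ₀ j ρ c μ _ _ x β τ hC hc hτ hΘ
  refine ⟨c, μ, inferInstance, inferInstance, x, (Units.map f.toMonoidHom).comp β,
    fun i => Units.map f.toMonoidHom (τ i), ?_, ?_⟩
  · exact cpm f α _ hC hc
  · intro i
    constructor
    · have h1 := congrArg f (hτ i)
      have h2 := hsTm R S f V α ((SLm j).comp ρ₀) (β.comp (x i))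
      show f (τ i).val * f (τ i).val - sT V ((SLm f).comp ((SLm j).comp ρ₀))
        ((Units.map f.toMonoidHom).comp (β.comp (x i))) * f (τ i).val + 1 = 0
      rw [h2]
      rw [map_add, map_sub, map_mul, map_mul, map_one, map_zero] at h1
      exact h1
    · obtain ⟨Θ, h1, h2, g, h, u, hu⟩ := hΘ i
      refine ⟨(Q2.map f).comp Θ, ?_, ?_, g, h, ?_⟩
      · rw [← h1]
        rfl
      · ext1 l
        have h3 : (Θ l).t = (β.comp (Ψ.toFun μ (x i)) * (pw (τ i)).comp nL) l :=
          DFunLike.congr_fun h2 l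
        show Units.map f.toMonoidHom (Θ l).t = _
        rw [h3, MonoidHom.mul_apply, map_mul, tl_pw]
        rfl
      · intro h0
        have h4 := congrFun h0 u
        have h5 : Q2.W (Q2.map f (Θ g)) (Q2.map f (Θ h)) u = 0 := h4
        rw [pf_wm] at h5
        exact hu h5

/-- functoriality under homomorphisms of fields -/
theorem p_fct (htl : S_tl) : S_fct := by
  intro a n V Λ _ nL Ψ A _ ρ₀ K K' _ _ f j ρ h
  obtain ⟨⟨u, v, huv⟩, ⟨g, g', hg⟩, hL⟩ := h
  refine ⟨⟨u, v, ?_⟩, ⟨g, g', ?_⟩, ?_⟩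
  · intro h2
    apply huv
    apply f.injective
    rw [map_ofNat, ← h2]
    exact (tr_map f _).symm
  · intro h2
    apply hg
    apply f.injective
    rw [map_ofNat, ← h2]
    exact (tr_map f _).symm
  · intro i m
    obtain ⟨c, μ, i1, i2, x, β, τ, hC, hall⟩ := hL i m
    have hc : (c : K') ≠ 0 := by
      intro h0
      apply hC.card
      apply f.injective
      rw [map_natCast, map_zero, h0]
    refine htl K K' f (V i m) (a ^ lv n i m) (LL nL i m) (Ψ i m) (nl nL i m) A
      (ρ₀.comp (ic a n i m)) j (ρ.comp (il nL i m)) c μ x β τ hC hc (fun u => (hall u).1)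
      (fun u => ?_)
    obtain ⟨Θ, h1, h2, a, b, hab⟩ := (hall u).2
    obtain ⟨t, ht⟩ := Function.ne_iff.1 hab
    refine ⟨Θ, h1, h2, a, b, t, ?_⟩
    intro h0
    exact ht (f.injective (h0.trans (map_zero f).symm))

end Pool.Agent.F8.NG.T
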