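import Pool.Agent.Lib.MP_305fdd_al.F8.NG.T.Stm

/-! Piece tow. -/

set_option autoImplicit false

namespace Pool.Agent.F8.NG.T

open Pool.Agent.MP_305fdd_al Pool.Agent.Lib.MP_305fdd_al Pool.Agent.F2X Pool.Agent.F8
  Pool.Agent.F8.HN

noncomputable section

private theorem tow_gen {G : Type} [Group G] (x y : G) (m : ℕ) (k : ℤ) :
    x * (y ^ m) ^ k = x * y ^ ((m : ℤ) * k) := by
  rw [← zpow_natCast, ← zpow_mul]

theorem tow_nP_inc (a : MulAut F) (n m : ℕ) (g : GP a (n * m)) :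
    nP a n (incP a n m g) = nP a (n * m) g ^ m := by
  obtain ⟨w, k, rfl⟩ := GA_cases (a ^ (n * m)) g
  have h1 : incP a n m (iP a (n * m) w * tP a (n * m) ^ k) = iP a n w * (tP a n ^ m) ^ k := by
    rw [map_mul, map_zpow, incP_iP, incP_tP]
  have h2 : nP a n (iP a n w * (tP a n ^ m) ^ k) =
      ((Multiplicative.ofAdd (1 : ℤ)) ^ m) ^ k := by
    rw [map_mul, map_zpow, map_pow (nP a n) (tP a n) m]
    show (1 : Multiplicative ℤ) * _ = _
    rw [one_mul]
    rfl
  have h3 : nP a (n * m) (iP a (n * m) w * tP a (n * m) ^ k) =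
      (Multiplicative.ofAdd (1 : ℤ)) ^ k := by
    rw [map_mul, map_zpow]
    show (1 : Multiplicative ℤ) * _ = _
    rw [one_mul]
    rfl
  show nP a n (incP a n m (iP a (n * m) w * tP a (n * m) ^ k)) =
    nP a (n * m) (iP a (n * m) w * tP a (n * m) ^ k) ^ m
  rw [h1, h2, h3, ← zpow_natCast, ← zpow_natCast, ← zpow_mul, ← zpow_mul, mul_comm]

theorem tow_inc_mem (a : MulAut F) (n m : ℕ) (g : GP a (n * m)) : incP a n m g ∈ Lm (nP a n) m := by
  show redZ m (nP a n (incP a n m g)) = 1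
  rw [tow_nP_inc, redZ_pow_self]

theorem tow_eq_one {a : MulAut F} {N : ℕ} {w : F} {k : ℤ} (h : iP a N w * tP a N ^ k = 1) :
    w = 1 ∧ k = 0 := by
  have h1 : nP a N (iP a N w * tP a N ^ k) = 1 := by rw [h, map_one]
  have h2 : nP a N (iP a N w * tP a N ^ k) = (Multiplicative.ofAdd (1 : ℤ)) ^ k := by
    rw [map_mul, map_zpow]
    show (1 : Multiplicative ℤ) * _ = _
    rw [one_mul]
    rfl
  rw [h2] at h1
  have hk : k = 0 := by
    have h3 := congrArg Multiplicative.toAdd h1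
    rw [toAdd_zpow, toAdd_ofAdd, toAdd_one] at h3
    simpa using h3
  subst hk
  rw [zpow_zero, mul_one] at h
  exact ⟨iA_injective (a ^ N) (by rw [map_one]; exact h), rfl⟩

theorem tow_injective (a : MulAut F) (n m : ℕ) (hm : 0 < m) :
    Function.Injective (incP a n m) := by
  rw [injective_iff_map_eq_one]
  intro g hg
  obtain ⟨w, k, rfl⟩ := GA_cases (a ^ (n * m)) g
  have h1 : incP a n m (iP a (n * m) w * tP a (n * m) ^ k) =
      iP a n w * tP a n ^ ((m : ℤ) * k) := by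
    rw [map_mul, map_zpow, incP_iP, incP_tP]
    exact tow_gen _ _ m k
  have h2 : iP a n w * tP a n ^ ((m : ℤ) * k) = 1 := h1.symm.trans hg
  obtain ⟨hw, hk⟩ := tow_eq_one h2
  have hk' : k = 0 := by
    rcases mul_eq_zero.1 hk with h | h
    · exact absurd h (by exact_mod_cast hm.ne')
    · exact h
  rw [hw, hk', map_one, zpow_zero, mul_one]

theorem tow_surj (a : MulAut F) (n m : ℕ) (x : Lm (nP a n) m) : ∃ g, incP a n m g = x := by
  obtain ⟨x, hx⟩ := x
  obtain ⟨w, k, hwk⟩ := GA_cases (a ^ n) x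
  obtain ⟨j, hj⟩ := Lm_dvd (nP a n) m ⟨_, hx⟩
  refine ⟨iP a (n * m) w * tP a (n * m) ^ j, ?_⟩
  have h1 : incP a n m (iP a (n * m) w * tP a (n * m) ^ j) =
      iP a n w * tP a n ^ ((m : ℤ) * j) := by
    rw [map_mul, map_zpow, incP_iP, incP_tP]
    exact tow_gen _ _ m j
  have h2 : Multiplicative.toAdd (nP a n x) = k := by
    rw [hwk]
    have e : nP a n (iP a n w * tP a n ^ k) = (Multiplicative.ofAdd (1 : ℤ)) ^ k := by
      rw [map_mul, map_zpow]
      show (1 : Multiplicative ℤ) * _ = _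
      rw [one_mul]
      rfl
    have e2 : Multiplicative.toAdd (nP a n (iA (a ^ n) w * tA (a ^ n) ^ k)) =
        Multiplicative.toAdd ((Multiplicative.ofAdd (1 : ℤ)) ^ k) := congrArg _ e
    rw [e2, toAdd_zpow, toAdd_ofAdd]
    simp
  have h3 : k = m * j := by rw [← h2]; exact hj
  rw [h1]
  show iP a n w * tP a n ^ ((m : ℤ) * j) = x
  rw [hwk, h3]

/-- `GP a (n * m)` is the kernel of `GP a n → ℤ / m` -/
def tow_incE (a : MulAut F) (n m : ℕ) (hm : 0 < m) : GP a (n * m) ≃* Lm (nP a n) m :=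
  MulEquiv.ofBijective ((incP a n m).codRestrict (Lm (nP a n) m) (tow_inc_mem a n m))
    ⟨fun x y h => tow_injective a n m hm (congrArg Subtype.val h), fun x => by
      obtain ⟨g, hg⟩ := tow_surj a n m x
      exact ⟨g, Subtype.ext hg⟩⟩

theorem tow_incE_coe (a : MulAut F) (n m : ℕ) (hm : 0 < m) (g : GP a (n * m)) :
    (tow_incE a n m hm g : GP a n) = incP a n m g := rfl

/-- one step of the tower -/
theorem tow_step (a : MulAut F) (n m : ℕ) (hm : 0 < m) {Λ : Type} [Group Λ]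
    (Φ : NatBij (GP a n) Λ) (nL : Λ →* Multiplicative ℤ) (hC : CmG Φ (nP a n) nL) :
    ∃ Ψ : NatBij (GP a (n * m)) (Lm nL m), CmG Ψ (nP a (n * m)) (nm nL m) ∧
      ∀ (R : Type) [Group R] [Finite R] (θ : GP a n →* R),
        Ψ.toFun R (θ.comp (incP a n m)) = (Φ.toFun R θ).comp (Lm nL m).subtype := by
  have hm0 : NeZero m := ⟨hm.ne'⟩
  have hfm : Finite (Multiplicative (ZMod m)) := inferInstanceAs (Finite (ZMod m))
  obtain ⟨Ψ₀, hΨ₀⟩ := natBij_ker Φ (hC m)
  let Ψ : NatBij (GP a (n * m)) (Lm nL m) := natBij_equiv (tow_incE a n m hm) Ψ₀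
  have hres : ∀ (R : Type) [Group R] [Finite R] (θ : GP a n →* R),
        Ψ.toFun R (θ.comp (incP a n m)) = (Φ.toFun R θ).comp (Lm nL m).subtype := by
    intro R _ _ θ
    rw [← hΨ₀]
    show Ψ₀.toFun R ((θ.comp (incP a n m)).comp (tow_incE a n m hm).symm.toMonoidHom) = _
    congr 1
    apply MonoidHom.ext
    intro x
    show θ (incP a n m ((tow_incE a n m hm).symm x)) = θ x
    rw [← tow_incE_coe a n m hm, MulEquiv.apply_symm_apply]
  refine ⟨Ψ, ?_, hres⟩
  intro k hk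
  have hkm : NeZero (k * m) := ⟨Nat.mul_ne_zero hk.out hm.ne'⟩
  have hf1 : Finite (Multiplicative (ZMod k)) := inferInstanceAs (Finite (ZMod k))
  have hf2 : Finite (Multiplicative (ZMod (k * m))) := inferInstanceAs (Finite (ZMod (k * m)))
  have h1 : (mulZ k m).comp ((redZ k).comp (nP a (n * m))) =
      ((redZ (k * m)).comp (nP a n)).comp (incP a n m) := by
    apply MonoidHom.ext
    intro g
    show mulZ k m (redZ k (nP a (n * m) g)) = redZ (k * m) (nP a n (incP a n m g))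
    rw [mulZ_redZ, tow_nP_inc]
  have h2 : (mulZ k m).comp (Ψ.toFun _ ((redZ k).comp (nP a (n * m)))) =
      (mulZ k m).comp ((redZ k).comp (nm nL m)) := by
    rw [← Ψ.nat, h1, hres, hC (k * m)]
    apply MonoidHom.ext
    intro x
    show redZ (k * m) (nL x) = mulZ k m (redZ k (nm nL m x))
    rw [mulZ_redZ, nm_pow]
  apply MonoidHom.ext
  intro x
  exact mulZ_injective k m hm (DFunLike.congr_fun h2 x)

theorem p_tow : S_tow := by
  intro a n Λ _ Φ nL hC
  choose Ψ1 hC1 hR1 using fun i : Fin 2 => tow_step a n (i.val + 2) (Nat.succ_pos _) Φ nL hC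
  choose Ψ2 hC2 hR2 using fun (i : Fin 2) (m : Fin 3) =>
    tow_step a (n * (i.val + 2)) (m.val + 1) (Nat.succ_pos _) (Ψ1 i) (nm nL (i.val + 2)) (hC1 i)
  refine ⟨Ψ2, ⟨?_, hC2⟩⟩
  intro i m Q _ _ f
  have h1 := hR2 i m Q (f.comp (incP a n (i.val + 2)))
  rw [hR1 i Q f] at h1
  exact h1

end

end Pool.Agent.F8.NG.T
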