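import Pool.Agent.Lib.MP_305fdd_al.F8.NG.T.Stm
import Pool.Agent.Lib.MP_305fdd_al.F8.P.mp
import Pool.Agent.Lib.MP_305fdd_al.F8.P.mt
import Pool.Agent.Lib.MP_305fdd_al.F8.PT.exT

/-!
# MP_305fdd_al, transfer for positive monodromies: piece un1, over finite fields `CN` determines the character
-/

set_option autoImplicit false

namespace Pool.Agent.F8.NG.T

open Pool.Agent.MP_305fdd_al Pool.Agent.Lib.MP_305fdd_al Pool.Agent.F2X Pool.Agent.F8
  Pool.Agent.F8.HN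

/-- the values of the matched representation on the kernel of `nL` are values of `ρ` on the fibre -/
theorem un1_aux (α : MulAut F) (Λ : Type) [Group Λ] (Φ : NatBij (GA α) Λ)
    (nL : Λ →* Multiplicative ℤ) (hc : CmG Φ (nA α) nL) (A : Type) [Group A] [Finite A]
    (ρ : GA α →* A) (x : Λ) (hx : nL x = 1) : ∃ f : F, ρ (iA α f) = Φ.toFun _ ρ x := by
  have hM : NeZero (Nat.card A) := ⟨Nat.card_pos.ne'⟩
  obtain ⟨g, h1, h2⟩ := (pf_mp (GA α) Λ Φ A (Multiplicative (ZMod (Nat.card A))) ρ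
    ((redZ (Nat.card A)).comp (nA α))).2 x
  rw [hc (Nat.card A)] at h2
  obtain ⟨w, i, rfl⟩ := GA_cases α g
  refine ⟨w, ?_⟩
  have h3 : redZ (Nat.card A) (nA α (iA α w * tA α ^ i)) = 1 := by
    have : redZ (Nat.card A) (nL x) = redZ (Nat.card A) (nA α (iA α w * tA α ^ i)) := h2
    rw [← this, hx, map_one]
  rw [map_mul, map_zpow, nA_iA, nA_tA, one_mul, ← ofAdd_zsmul, smul_eq_mul, mul_one,
    redZ_ofAdd] at h3
  have h4 : ((i : ℤ) : ZMod (Nat.card A)) = 0 := h3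
  obtain ⟨j, rfl⟩ := (ZMod.intCast_zmod_eq_zero_iff_dvd _ _).1 h4
  rw [h1, map_mul, map_zpow, zpow_mul, zpow_natCast, pow_card_eq_one', one_zpow, mul_one]

/-- irreducibility on the fibre -/
theorem un1_irF (α : MulAut F) (Λ : Type) [Group Λ] (Φ : NatBij (GA α) Λ)
    (nL : Λ →* Multiplicative ℤ) (hc : CmG Φ (nA α) nL) (k : Type) [Field k] [Finite k]
    (ρ : GA α →* SL2 k) (hI : Irr ((Φ.toFun _ ρ).comp nL.ker.subtype)) :
    Irr (ρ.comp (iA α)) := by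
  obtain ⟨u, v, huv⟩ := hI
  obtain ⟨f, hf⟩ := un1_aux α Λ Φ nL hc (SL2 k) ρ u.1 u.2
  obtain ⟨f', hf'⟩ := un1_aux α Λ Φ nL hc (SL2 k) ρ v.1 v.2
  refine ⟨f, f', ?_⟩
  have h : ρ (iA α (f * f' * f⁻¹ * f'⁻¹)) =
      ((Φ.toFun _ ρ).comp nL.ker.subtype) (u * v * u⁻¹ * v⁻¹) := by
    rw [map_mul, map_mul, map_mul, map_mul, map_mul, map_mul, map_inv, map_inv, map_inv, map_inv,
      map_mul, map_mul, map_mul, map_inv, map_inv, hf, hf']
    rfl
  show tr (ρ (iA α (f * f' * f⁻¹ * f'⁻¹))) ≠ 2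
  rw [h]
  exact huv

/-- over finite fields `CN` determines the character -/
theorem p_un1 (hmx : S_mx) : S_un1 := by
  intro V1 b a ha n hn V hV Λ _ Φ nL Ψ hC hT A _ ρ₀ k _ _ j ρ hCN l
  obtain ⟨hA, hI, hL⟩ := hCN
  set ρ' : GP a n →* SL2 k := Φ.invFun _ ρ with hρ'
  have hr : Φ.toFun _ ρ' = ρ := Φ.right_inv _ ρ
  have hI' : Irr (ρ'.comp (iP a n)) := by
    apply un1_irF (a ^ n) Λ Φ nL hC k ρ'
    rw [hr]; exact hI
  choose c μ iμ fμ x β τ hcpl hex using hL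
  have hkey : ∀ g, tr (ρ' g) = tr (((SLm j).comp ρ₀) g) := by
    apply NI1 V1 b a ha n hn k ρ' ((SLm j).comp ρ₀) hI' hA c (fun i m u => (β i m).comp (x i m u))
      τ (fun i m => hcpl i m)
    intro i m u
    obtain ⟨hq, he⟩ := hex i m u
    constructor
    · have h0 := (p_exT pf_mt _ _ (Ψ i m) k (ρ'.comp (ic a n i m))
        (((β i m).comp (x i m u)) * (pw (τ i m u)).comp (nP a (lv n i m)))).2
      apply h0
      have e1 : (Ψ i m).toFun _ (ρ'.comp (ic a n i m)) = ρ.comp (il nL i m) := by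
        rw [hT.res i m _ ρ', hr]
      have e2 := hmx (GP a (lv n i m)) _ (Ψ i m) _ _ (hT.cmp i m) k (μ i m) (x i m u) (β i m)
        (τ i m u)
      rw [e1]
      erw [e2]
      exact he
    · refine (ex_iff (V i m) (a ^ lv n i m) (hV i m) (((SLm j).comp ρ₀).comp (ic a n i m)) ?_
        ((β i m).comp (x i m u)) ((hcpl i m).t1 u) (τ i m u)).2 hq
      obtain ⟨w, w', hw⟩ := hA
      refine ⟨w, w', ?_⟩
      have e : ((((SLm j).comp ρ₀).comp (ic a n i m)).comp (iA (a ^ lv n i m)))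
          (w * w' * w⁻¹ * w'⁻¹) = (((SLm j).comp ρ₀).comp (iP a n)) (w * w' * w⁻¹ * w'⁻¹) := by
        show ((SLm j).comp ρ₀) (incP a n (i.val + 2) (incP a (n * (i.val + 2)) (m.val + 1)
          (iP a (n * (i.val + 2) * (m.val + 1)) _))) = ((SLm j).comp ρ₀) (iP a n _)
        rw [incP_iP, incP_iP]
      rw [e]
      exact hw
  obtain ⟨g, hg1, hg2⟩ := (pf_mp _ _ Φ _ _ ρ' ((SLm j).comp ρ₀)).2 l
  rw [hg2, ← hkey g, ← hg1, hr]

end Pool.Agent.F8.NG.T
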