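import Pool.Agent.Lib.MP_305fdd_al.F8.NG.T.Stm
import Pool.Agent.Lib.MP_305fdd_al.F8.MainPT

/-!
# MP_305fdd_al, transfer for positive monodromies: pieces un2, LCp, CNp, CNq
-/

set_option autoImplicit false

namespace Pool.Agent.F8.NG.T

open Pool.Agent.MP_305fdd_al Pool.Agent.Lib.MP_305fdd_al Pool.Agent.F2X Pool.Agent.F8
  Pool.Agent.F8.HN

noncomputable section

/-- uniqueness -/
theorem p_un2 (hun1 : S_un1) (hspc : S_spc) : S_un2 := by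
  intro V1 b a ha n hn V hV Λ _ _ Φ nL Ψ hcm htw A _ _ ρ₀ K _ j ρ₁ ρ₂ h1 h2 l
  by_contra hne
  obtain ⟨P, iP, fP, T, X, hT, hX, hR⟩ := hspc a n V Λ nL Ψ A ρ₀ K j ρ₁ ρ₂ h1 h2 l
  obtain ⟨⟨k, ik, fk, R, π, hπ⟩, -⟩ := all_spt K P T X hT hX
  obtain ⟨j', ρ₁', ρ₂', c1, c2, htr⟩ := hR k R π hπ
  refine htr hne ?_
  rw [hun1 V1 b a ha n hn V hV Λ Φ nL Ψ hcm htw A ρ₀ k j' ρ₁' c1 l,
    hun1 V1 b a ha n hn V hV Λ Φ nL Ψ hcm htw A ρ₀ k j' ρ₂' c2 l]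

/-- the condition at one level -/
theorem p_LCp (hpe2 : S_pe2) : S_LCp := by
  intro p _ V α hα hdet htr L _ Ψ nL hcm A _ _ ρ₀ r hr j hirr
  obtain ⟨c, X, -, hcpl, hXc⟩ := cpx (Fl p) α hdet htr
  have hc0 : c ≠ 0 := by
    rintro rfl
    exact hcpl.card Nat.cast_zero
  have : NeZero c := ⟨hc0⟩
  choose τ h1 h2 using fun i => ex0 V α hα ((SLm j).comp ρ₀) hirr (X i) (hcpl.t1 i)
  have hmem : ∀ i g, X i g ∈ rootsOfUnity c (Fl p) := fun i g => by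
    rw [mem_rootsOfUnity]
    exact hXc i g
  have hcomp : ∀ i, (rootsOfUnity c (Fl p)).subtype.comp
      ((X i).codRestrict (rootsOfUnity c (Fl p)) (hmem i)) = X i := by
    intro i
    ext g
    rfl
  refine ⟨c, rootsOfUnity c (Fl p), inferInstance, inferInstance,
    fun i => (X i).codRestrict (rootsOfUnity c (Fl p)) (hmem i),
    (rootsOfUnity c (Fl p)).subtype, τ, ?_, fun i => ⟨?_, ?_⟩⟩
  · have : (fun i => (rootsOfUnity c (Fl p)).subtype.comp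
      ((X i).codRestrict (rootsOfUnity c (Fl p)) (hmem i))) = X := funext hcomp
    rw [this]
    exact hcpl
  · rw [hcomp i]
    exact h2 i
  · apply hpe2 p V α L Ψ nL hcm A ρ₀ r hr j
    · rw [hcomp i]
      exact h2 i
    · rw [hcomp i]
      exact h1 i

/-- irreducibility is preserved by injective homomorphisms -/
theorem irr_inj {G A K : Type} [Group G] [CommRing A] [CommRing K] (ρ : G →* SL2 A) (j : A →+* K)
    (hj : Function.Injective j) (h : Irr ρ) : Irr ((SLm j).comp ρ) := by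
  obtain ⟨g, k, hgk⟩ := h
  refine ⟨g, k, fun h0 => hgk ?_⟩
  apply hj
  rw [map_ofNat, ← h0]
  exact (tr_map j _).symm

/-- the `p`-adic representations satisfy `CN` -/
theorem p_CNp (hLCp : S_LCp) (hirp : S_irp) (hji : S_ji) : S_CNp := by
  intro V1 b a ha n hn V hV Λ _ Φ nL Ψ hs hC hT A _ _ _ _ ρ₀ hirr p _ r hr j
  have hj : Function.Injective j := (hji A).1 (Fl p) j
  have hF : Irr (((SLm j).comp ρ₀).comp (iP a n)) := irr_inj _ j hj hirr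
  refine ⟨hF, hirp a n Λ Φ nL hs hC A ρ₀ hirr p r hr j, fun i m => ?_⟩
  have hlv : 1 ≤ lv n i m := Nat.mul_pos (Nat.mul_pos hn (Nat.succ_pos _)) (Nat.succ_pos _)
  obtain ⟨hdet, htr⟩ := Wd_pow V1 b a ha (lv n i m) hlv
  refine hLCp p (V i m) (a ^ lv n i m) (hV i m) hdet htr (LL nL i m) (Ψ i m) (nl nL i m)
    (hT.cmp i m) A (ρ₀.comp (ic a n i m)) (r.comp (il nL i m)) (fun k => ?_) j ?_
  · have h1 : (SLm (TM A (PadicInt.toZModPow k))).comp (r.comp (il nL i m)) =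
        (Φ.toFun _ (rA (ZMod (p ^ k)) ρ₀)).comp (il nL i m) := by
      rw [← hr k]; rfl
    rw [h1, ← hT.res i m]
    rfl
  · have h2 : ((SLm j).comp (ρ₀.comp (ic a n i m))).comp (iA (a ^ lv n i m)) =
        ((SLm j).comp ρ₀).comp (iP a n) := by
      refine MonoidHom.ext fun w => ?_
      show SLm j (ρ₀ (incP a n (i.val + 2) (incP a (n * (i.val + 2)) (m.val + 1)
        (iP a (n * (i.val + 2) * (m.val + 1)) w)))) = SLm j (ρ₀ (iP a n w))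
      rw [incP_iP, incP_iP]
    rw [h2]
    exact hF

/-- a representation over `AlgebraicClosure ℚ` -/
theorem p_CNq (hCNp : S_CNp) (hrL : S_rL) (hspc : S_spc) (hexj : S_exj) : S_CNq := by
  intro V1 b a ha n hn V hV Λ _ _ Φ nL Ψ hsur hcm htw A _ _ _ _ ρ₀ hirr
  have : Fact (Nat.Prime 2) := ⟨Nat.prime_two⟩
  obtain ⟨j, -⟩ := hexj A 2
  obtain ⟨r, hr⟩ := hrL (GP a n) Λ Φ A ρ₀ 2
  have hC := hCNp V1 b a ha n hn V hV Λ Φ nL Ψ hsur hcm htw A ρ₀ hirr 2 r hr j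
  obtain ⟨P, iP, iF, T, X, hT, hX, h⟩ := hspc a n V Λ nL Ψ A ρ₀ (Fl 2) j _ _ hC hC 1
  obtain ⟨-, h2⟩ := all_spt (Fl 2) P T X hT hX
  obtain ⟨R, π, hS⟩ := h2 inferInstance
  obtain ⟨j', ρ₁', ρ₂', h1, -, -⟩ := h (AlgebraicClosure ℚ) R π hS
  exact ⟨j', ρ₁', h1⟩

/-- BLOCK NT for positive monodromies -/
theorem p_NTG (htow : S_tow) (hCNq : S_CNq) (hval : S_val) (hrL : S_rL) (hred : S_red)
    (hji : S_ji) : AB.S_NTG := by
  intro V1 b a ha n hn A _ _ _ _ ρ₀ hirr Λ _ _ Φ nL hs hC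
  obtain ⟨Ψ, hT⟩ := htow a n Λ Φ nL hC
  have hV : WV a n (fun i m => rep (Wd V1 b) (lv n i m)) := fun i m => by
    rw [al_rep, ha]
  obtain ⟨j, s, hCN⟩ := hCNq V1 b a ha n hn _ hV Λ Φ nL Ψ hs hC hT A ρ₀ hirr
  choose r hr using fun (p : ℕ) (_ : Fact p.Prime) => hrL (GP a n) Λ Φ A ρ₀ p
  choose T hT1 hT2 using hval V1 b a ha n hn _ hV Λ Φ nL Ψ hs hC hT A ρ₀ hirr j s hCN r hr
  exact ⟨T, s, j, (hji A).1 _ j, hT1, hCN.irL, fun S _ _ h g =>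
    hred (GP a n) Λ Φ A ρ₀ r hr g (T g) (hT2 g) S h⟩

end

end Pool.Agent.F8.NG.T
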