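import Pool.Agent.Lib.MP_305fdd_al.F8.NG.T.Stm

/-!
# MP_305fdd_al, block NTG, piece val: the values are in `A`
-/

set_option autoImplicit false

namespace Pool.Agent.F8.NG.T

open Pool.Agent.MP_305fdd_al Pool.Agent.Lib.MP_305fdd_al Pool.Agent.F2X Pool.Agent.F8
  Pool.Agent.F8.HN
open scoped TensorProduct

noncomputable section

theorem p_val (hun2 : S_un2) (hfct : S_fct) (hCNp : S_CNp) (hgl : S_gl) (hemb : S_emb)
    (hsep : S_sep) (hdiv : S_div) : S_val := by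
  intro V1 b a hV1 n hn V hWV Λ _ _ Φ nL Ψ hs hcm htw A _ _ _ _ ρ₀ hI j s hCN r hr l
  have h1 : ∀ g : AlgebraicClosure ℚ ≃ₐ[ℚ] AlgebraicClosure ℚ, (∀ y, g (j y) = j y) →
      g (tr (s l)) = tr (s l) := by
    intro g hg
    have h := hfct a n V Λ nL Ψ A ρ₀ _ _ (g : AlgebraicClosure ℚ →+* AlgebraicClosure ℚ) j s hCN
    have hj : (g : AlgebraicClosure ℚ →+* AlgebraicClosure ℚ).comp j = j := RingHom.ext hg
    rw [hj] at h
    have h2 := hun2 V1 b a hV1 n hn V hWV Λ Φ nL Ψ hcm htw A ρ₀ _ j _ _ h hCN l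
    rw [MonoidHom.comp_apply, tr_map] at h2
    exact h2
  obtain ⟨m, y, hm, hy⟩ := hgl A j (tr (s l)) h1
  have h2 : ∀ (p : ℕ) [Fact p.Prime], (m : AT ℤ_[p] A) * tr (r p l) = ia ℤ_[p] A y := by
    intro p _
    rw [← sub_eq_zero]
    apply hsep
    intro j'
    obtain ⟨ι, hι⟩ := hemb A p j j'
    have h := hfct a n V Λ nL Ψ A ρ₀ _ _ ι j s hCN
    rw [hι] at h
    have h3 := hun2 V1 b a hV1 n hn V hWV Λ Φ nL Ψ hcm htw A ρ₀ _ j' _ _ h
      (hCNp V1 b a hV1 n hn V hWV Λ Φ nL Ψ hs hcm htw A ρ₀ hI p (r p) (hr p) j') l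
    rw [MonoidHom.comp_apply, tr_map, MonoidHom.comp_apply, tr_map] at h3
    rw [map_sub, map_mul, map_natCast, jj_ia_apply, ← h3, ← hι, RingHom.comp_apply, ← hy,
      map_mul, map_natCast, sub_self]
  obtain ⟨t, ht1, ht2⟩ := hdiv A m y (fun p _ => tr (r p l)) hm h2
  refine ⟨t, ?_, fun p _ => ht2 p⟩
  have hm' : (m : AlgebraicClosure ℚ) ≠ 0 := Nat.cast_ne_zero.2 hm
  apply mul_left_cancel₀ hm'
  rw [hy, ← ht1, map_mul, map_natCast]

end

end Pool.Agent.F8.NG.T
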