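import Pool.Agent.Lib.MP_305fdd_al.F8.NG.T.P_mx
import Pool.Agent.Lib.MP_305fdd_al.F8.NG.T.P_un1
import Pool.Agent.Lib.MP_305fdd_al.F8.NG.T.P_tl
import Pool.Agent.Lib.MP_305fdd_al.F8.NG.T.P_spl
import Pool.Agent.Lib.MP_305fdd_al.F8.NG.T.P_spc
import Pool.Agent.Lib.MP_305fdd_al.F8.NG.T.P_un2
import Pool.Agent.Lib.MP_305fdd_al.F8.NG.T.P_lim
import Pool.Agent.Lib.MP_305fdd_al.F8.NG.T.P_ji
import Pool.Agent.Lib.MP_305fdd_al.F8.NG.T.P_irp
import Pool.Agent.Lib.MP_305fdd_al.F8.NG.T.P_lft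
import Pool.Agent.Lib.MP_305fdd_al.F8.NG.T.P_pe
import Pool.Agent.Lib.MP_305fdd_al.F8.NG.T.P_pe2
import Pool.Agent.Lib.MP_305fdd_al.F8.NG.T.P_gl
import Pool.Agent.Lib.MP_305fdd_al.F8.NG.T.P_sep
import Pool.Agent.Lib.MP_305fdd_al.F8.NG.T.P_div
import Pool.Agent.Lib.MP_305fdd_al.F8.NG.T.P_val
import Pool.Agent.Lib.MP_305fdd_al.F8.NG.T.P_red
import Pool.Agent.Lib.MP_305fdd_al.F8.NG.T.P_tow

/-!
# MP_305fdd_al: block NTG (transfer for once-punctured torus bundles with positive monodromy), assembly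
-/

set_option autoImplicit false

namespace Pool.Agent.F8.NG.T


/-- the general transfer theorem -/
theorem all_NTG : AB.S_NTG := by
  have tl : S_tl := p_tl p_sTm
  have spc : S_spc := p_spc (p_spl tl p_sTm)
  have fct : S_fct := p_fct tl
  have un1 : S_un1 := p_un1 p_mx
  have un2 : S_un2 := p_un2 un1 spc
  have rL : S_rL := p_rL p_lim
  have irp : S_irp := p_irp p_ji
  have lft : S_lft := p_lft p_ig all_RR
  have pe2 : S_pe2 := p_pe2 (p_pe p_mx) lft p_Wsc pf_wm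
  have LCp : S_LCp := p_LCp pe2
  have CNp : S_CNp := p_CNp LCp irp p_ji
  have CNq : S_CNq := p_CNq CNp rL spc p_exj
  have val : S_val := p_val un2 fct CNp (p_gl p_ji) (p_emb p_ji) (p_sep p_ji) p_div
  exact p_NTG p_tow CNq val rL p_red p_ji

end Pool.Agent.F8.NG.T

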