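import Pool.Agent.Lib.MP_305fdd_al.F8.StmNT
import Pool.Agent.Lib.MP_305fdd_al.F8.Tower
import Pool.Agent.Lib.MP_305fdd_al.F8.StmHN
import Pool.Agent.Lib.MP_305fdd_al.F8.StmC
import Pool.Agent.Lib.MP_305fdd_al.F8.DefsN

/-!
# MP_305fdd_al, once-punctured torus bundles: the rings `R ⊗ A`
-/

set_option autoImplicit false

namespace Pool.Agent.F8.NG.T

open Pool.Agent.MP_305fdd_al Pool.Agent.Lib.MP_305fdd_al Pool.Agent.F2X Pool.Agent.F8
  Pool.Agent.F8.HN
open scoped TensorProduct

noncomputable section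

/-! ### The rings `R ⊗ A` -/

/-- `R ⊗ A` -/
abbrev AT (R A : Type) [CommRing R] [CommRing A] : Type := R ⊗[ℤ] A

section AT

variable {R S A K : Type} [CommRing R] [CommRing S] [CommRing A] [CommRing K]

variable (R A) in
/-- the embedding of `A` -/
def ia : A →+* AT R A := (Algebra.TensorProduct.includeRight : A →ₐ[ℤ] R ⊗[ℤ] A).toRingHom

variable (R A) in
/-- the embedding of `R` -/
def ir : R →+* AT R A := (Algebra.TensorProduct.includeLeft : R →ₐ[ℤ] R ⊗[ℤ] A).toRingHom

theorem ia_apply (a : A) : ia R A a = (1 : R) ⊗ₜ a := rfl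
theorem ir_apply (r : R) : ir R A r = r ⊗ₜ (1 : A) := rfl

/-- the homomorphism `R ⊗ A → K` given by `f` and `j` -/
def jj (f : R →+* K) (j : A →+* K) : AT R A →+* K :=
  (Algebra.TensorProduct.productMap f.toIntAlgHom j.toIntAlgHom).toRingHom

theorem jj_tmul (f : R →+* K) (j : A →+* K) (r : R) (a : A) : jj f j (r ⊗ₜ a) = f r * j a :=
  Algebra.TensorProduct.productMap_apply_tmul (R := ℤ) f.toIntAlgHom j.toIntAlgHom r a

theorem jj_ia_apply (f : R →+* K) (j : A →+* K) (a : A) : jj f j (ia R A a) = j a := by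
  rw [ia_apply, jj_tmul, map_one, one_mul]
theorem jj_ir_apply (f : R →+* K) (j : A →+* K) (r : R) : jj f j (ir R A r) = f r := by
  rw [ir_apply, jj_tmul, map_one, mul_one]
theorem jj_ia (f : R →+* K) (j : A →+* K) : (jj f j).comp (ia R A) = j :=
  RingHom.ext (jj_ia_apply f j)
theorem jj_ir (f : R →+* K) (j : A →+* K) : (jj f j).comp (ir R A) = f :=
  RingHom.ext (jj_ir_apply f j)

/-- homomorphisms on `R ⊗ A` are determined by their values on `R` and `A` -/
theorem AT_ext {g h : AT R A →+* K} (h1 : ∀ r, g (ir R A r) = h (ir R A r))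
    (h2 : ∀ a, g (ia R A a) = h (ia R A a)) : g = h := by
  apply RingHom.ext
  intro x
  induction x using TensorProduct.induction_on with
  | zero => rw [map_zero, map_zero]
  | tmul r a =>
    have e : (r ⊗ₜ[ℤ] a : AT R A) = ir R A r * ia R A a := by
      rw [ir_apply, ia_apply, Algebra.TensorProduct.tmul_mul_tmul, mul_one, one_mul]
    rw [e, map_mul, map_mul, h1, h2]
  | add x y hx hy => rw [map_add, map_add, hx, hy]

theorem comp_jj {L : Type} [CommRing L] (h : K →+* L) (f : R →+* K) (j : A →+* K) :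
    h.comp (jj f j) = jj (h.comp f) (h.comp j) := by
  apply AT_ext
  · intro r; rw [RingHom.comp_apply, jj_ir_apply, jj_ir_apply]; rfl
  · intro a; rw [RingHom.comp_apply, jj_ia_apply, jj_ia_apply]; rfl

variable (A) in
/-- functoriality in `R` -/
def TM (f : R →+* S) : AT R A →+* AT S A := jj ((ir S A).comp f) (ia S A)

theorem TM_tmul (f : R →+* S) (r : R) (a : A) : TM A f (r ⊗ₜ a) = f r ⊗ₜ a := by
  unfold TM
  rw [jj_tmul, RingHom.comp_apply, ir_apply, ia_apply, Algebra.TensorProduct.tmul_mul_tmul,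
    mul_one, one_mul]
theorem TM_ia_apply (f : R →+* S) (a : A) : TM A f (ia R A a) = ia S A a := jj_ia_apply _ _ a
theorem TM_ir_apply (f : R →+* S) (r : R) : TM A f (ir R A r) = ir S A (f r) := jj_ir_apply _ _ r
theorem TM_ia (f : R →+* S) : (TM A f).comp (ia R A) = ia S A := RingHom.ext (TM_ia_apply f)

theorem jj_TM (f : R →+* S) (g : S →+* K) (j : A →+* K) :
    (jj g j).comp (TM A f) = jj (g.comp f) j := by
  apply AT_ext
  · intro r; rw [RingHom.comp_apply, TM_ir_apply, jj_ir_apply, jj_ir_apply]; rfl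
  · intro a; rw [RingHom.comp_apply, TM_ia_apply, jj_ia_apply, jj_ia_apply]

theorem TM_TM {U : Type} [CommRing U] (f : R →+* S) (g : S →+* U) :
    (TM A g).comp (TM A f) = TM A (g.comp f) := jj_TM f _ _

end AT

instance finAT {R A : Type} [CommRing R] [Finite R] [CommRing A] [Module.Finite ℤ A] :
    Finite (AT R A) := Module.finite_of_finite R

/-- the representation over `R ⊗ A` -/
abbrev rA (R : Type) [CommRing R] {A : Type} [CommRing A] {G : Type} [Group G]
    (ρ₀ : G →* SL2 A) : G →* SL2 (AT R A) := (SLm (ia R A)).comp ρ₀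

theorem map_rA {R S A : Type} [CommRing R] [CommRing S] [CommRing A] {G : Type} [Group G]
    (f : R →+* S) (ρ₀ : G →* SL2 A) : (SLm (TM A f)).comp (rA R ρ₀) = rA S ρ₀ := by
  have h : (SLm (TM A f)).comp (rA R ρ₀) = (SLm ((TM A f).comp (ia R A))).comp ρ₀ := rfl
  rw [h, TM_ia]

theorem jj_rA {R A K : Type} [CommRing R] [CommRing A] [CommRing K] {G : Type} [Group G]
    (f : R →+* K) (j : A →+* K) (ρ₀ : G →* SL2 A) :
    (SLm (jj f j)).comp (rA R ρ₀) = (SLm j).comp ρ₀ := by
  have h : (SLm (jj f j)).comp (rA R ρ₀) = (SLm ((jj f j).comp (ia R A))).comp ρ₀ := rfl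
  rw [h, jj_ia]

/-- the matched `p`-adic representation -/
def RL {G Λ : Type} [Group G] [Group Λ] (Φ : NatBij G Λ) {A : Type} [CommRing A]
    [Module.Finite ℤ A] (ρ₀ : G →* SL2 A) (p : ℕ) [Fact p.Prime] (r : Λ →* SL2 (AT ℤ_[p] A)) :
    Prop :=
  ∀ k : ℕ, (SLm (TM A (PadicInt.toZModPow k))).comp r = Φ.toFun _ (rA (ZMod (p ^ k)) ρ₀)

end

end Pool.Agent.F8.NG.T
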