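import Pool.Agent.Lib.MP_305fdd_al.F8.AB.DefsT
import Pool.Agent.Lib.MP_305fdd_al.F8.NG.Cpl
import Pool.Agent.Lib.MP_305fdd_al.F8.StmNT
import Pool.Agent.Lib.MP_305fdd_al.F8.NG.T.DefsA
import Pool.Agent.Lib.MP_305fdd_al.F8.Tower

/-!
# MP_305fdd_al, once-punctured torus bundles with positive monodromy. Definitions for the transfer.

The general form of `DefsNT.lean`: `ℤ[ω]` is replaced by an order `A` and the root `w` by a homomorphism
`j : A →+* K`. `AT R A = R ⊗ A` replaces `Es R`, `jj f j : AT R A →+* K` replaces `jw f w hw`, `TM A f` replaces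
`Qd.map (-1) f`, `rA R ρ₀` replaces `rE n R`. There are six levels `(i, m)` with the numbers `(i + 2) (m + 1)`,
`i = 0, 1`, `m = 0, 1, 2`.
-/

set_option autoImplicit false

namespace Pool.Agent.F8.NG.T

open Pool.Agent.MP_305fdd_al Pool.Agent.Lib.MP_305fdd_al Pool.Agent.F2X Pool.Agent.F8
  Pool.Agent.F8.HN
open scoped TensorProduct

noncomputable section

/-! ### One level -/

/-- The condition at one level: `GA α` corresponds to `L` by `Ψ`, `α = al V`. There are a complete family of
characters `β ∘ x i` of `GA α` and numbers `τ i` such that `τ i` is an exceptional value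
of the representation `(SLm j).comp ρ₀` for `β ∘ x i` (a quadratic equation), and `τ i` is an exceptional value of `ρ`
for the corresponding character of `L`. -/
def LC (V : List Bool) {α : MulAut F} {L : Type} [Group L] (Ψ : NatBij (GA α) L)
    (nL : L →* Multiplicative ℤ) {A K : Type} [CommRing A] [CommRing K] (ρ₀ : GA α →* SL2 A)
    (j : A →+* K) (ρ : L →* SL2 K) : Prop :=
  ∃ (c : ℕ) (μ : Type) (_ : CommGroup μ) (_ : Finite μ) (x : Fin c → (GA α →* μ)) (β : μ →* Kˣ)
    (τ : Fin c → Kˣ), Cpl α (fun i => β.comp (x i)) ∧ ∀ i,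
      (τ i).val * (τ i).val - sT V ((SLm j).comp ρ₀) (β.comp (x i)) * (τ i).val + 1 = 0 ∧
      Ex1 ρ (β.comp (Ψ.toFun μ (x i)) * (pw (τ i)).comp nL)

/-! ### The six levels -/

/-- the number of the level -/
abbrev lv (n : ℕ) (i : Fin 2) (m : Fin 3) : ℕ := n * (i.val + 2) * (m.val + 1)

/-- the group of the level, for `GP a n` -/
abbrev ic (a : MulAut F) (n : ℕ) (i : Fin 2) (m : Fin 3) : GP a (lv n i m) →* GP a n :=
  (incP a n (i.val + 2)).comp (incP a (n * (i.val + 2)) (m.val + 1))

section lev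

variable {Λ : Type} [Group Λ] (nL : Λ →* Multiplicative ℤ) (i : Fin 2) (m : Fin 3)

/-- the group of the level, for `Λ` -/
abbrev LL : Type := Lm (nm nL (i.val + 2)) (m.val + 1)

/-- the inclusion of the level -/
abbrev il : LL nL i m →* Λ :=
  (Lm nL (i.val + 2)).subtype.comp (Lm (nm nL (i.val + 2)) (m.val + 1)).subtype

/-- the exponents -/
abbrev nl : LL nL i m →* Multiplicative ℤ := nm (nm nL (i.val + 2)) (m.val + 1)

end lev

section cond

variable {Λ : Type} [Group Λ] {a : MulAut F} {n : ℕ}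

/-- the natural bijections are compatible with restriction and with the exponents -/
structure Twr (Φ : NatBij (GP a n) Λ) (nL : Λ →* Multiplicative ℤ)
    (Ψ : ∀ (i : Fin 2) (m : Fin 3), NatBij (GP a (lv n i m)) (LL nL i m)) : Prop where
  /-- restriction -/
  res : ∀ (i : Fin 2) (m : Fin 3) (Q : Type) [Group Q] [Finite Q] (f : GP a n →* Q),
    (Ψ i m).toFun Q (f.comp (ic a n i m)) = (Φ.toFun Q f).comp (il nL i m)
  /-- exponents -/
  cmp : ∀ (i : Fin 2) (m : Fin 3), CmG (Ψ i m) (nP a (lv n i m)) (nl nL i m)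

/-- the condition on a representation of `Λ` -/
structure CN (V : Fin 2 → Fin 3 → List Bool) (nL : Λ →* Multiplicative ℤ)
    (Ψ : ∀ (i : Fin 2) (m : Fin 3), NatBij (GP a (lv n i m)) (LL nL i m))
    {A K : Type} [CommRing A] [CommRing K] (ρ₀ : GP a n →* SL2 A) (j : A →+* K)
    (ρ : Λ →* SL2 K) : Prop where
  /-- `ρ₀` is irreducible on `F` -/
  irA : Irr (((SLm j).comp ρ₀).comp (iP a n))
  /-- `ρ` is irreducible on the kernel of `nL` -/
  irL : Irr (ρ.comp nL.ker.subtype)
  /-- the levels -/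
  lev : ∀ (i : Fin 2) (m : Fin 3),
    LC (V i m) (Ψ i m) (nl nL i m) (ρ₀.comp (ic a n i m)) j (ρ.comp (il nL i m))

end cond

/-- the words belong to the levels -/
def WV (a : MulAut F) (n : ℕ) (V : Fin 2 → Fin 3 → List Bool) : Prop :=
  ∀ (i : Fin 2) (m : Fin 3), al (V i m) = a ^ lv n i m

end

end Pool.Agent.F8.NG.T
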