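import Pool.Agent.Lib.MP_305fdd_al.F8.NG.T.Stm

set_option autoImplicit false

/-! The piece `lft`: descent of an affine representation to a good ring. -/

namespace Pool.Agent.F8.NG.T

open Pool.Agent.MP_305fdd_al Pool.Agent.Lib.MP_305fdd_al Pool.Agent.F2X Pool.Agent.F8 Pool.Agent.F8.HN

private theorem lft_inj {R K : Type} [CommRing R] [CommRing K] (j : R →+* K)
    (hj : Function.Injective j) : Function.Injective (Q2.map j) := by
  intro x y h
  apply Q2.ext
  · apply Units.ext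
    apply hj
    exact congrArg (fun q : Q2 K => q.t.val) h
  · apply Subtype.ext
    ext i k
    apply hj
    exact congrArg (fun q : Q2 K => q.m.val i k) h
  · ext i
    apply hj
    exact congrArg (fun q : Q2 K => q.v i) h

private theorem lft_mem {R K : Type} [CommRing R] [CommRing K] (j : R →+* K)
    (hj : Function.Injective j) (q : Q2 K) (h1 : ∃ y, j y = q.t.val)
    (h2 : ∃ y, j y = (q.t⁻¹).val) (h3 : ∀ i k, ∃ y, j y = q.m.val i k)
    (h4 : ∀ i, ∃ y, j y = q.v i) : q ∈ (Q2.map j).range := by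
  obtain ⟨a, ha⟩ := h1
  obtain ⟨b, hb⟩ := h2
  choose M hM using h3
  choose v hv using h4
  refine ⟨⟨⟨a, b, ?_, ?_⟩, ⟨Matrix.of M, ?_⟩, v⟩, ?_⟩
  · apply hj
    rw [map_mul, ha, hb, map_one]
    exact q.t.val_inv
  · apply hj
    rw [map_mul, ha, hb, map_one]
    exact q.t.inv_val
  · apply hj
    have := q.m.2
    rw [Matrix.det_fin_two] at this ⊢
    rw [map_one, ← this, ← hM, ← hM, ← hM, ← hM]
    simp
  · apply Q2.ext
    · exact Units.ext ha
    · apply Subtype.ext
      ext i k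
      exact hM i k
    · ext i
      exact hv i

private theorem lft_gen {α : MulAut F} (H : Subgroup (GA α)) (h1 : iA α ga ∈ H)
    (h2 : iA α gb ∈ H) (h3 : tA α ∈ H) (g : GA α) : g ∈ H := by
  obtain ⟨w, n, rfl⟩ := GA_cases α g
  refine H.mul_mem ?_ (H.zpow_mem h3 n)
  have : w ∈ H.comap (iA α) := by
    have hle : (⊤ : Subgroup F) ≤ H.comap (iA α) := by
      rw [← FreeGroup.closure_range_of (Fin 2), Subgroup.closure_le]
      rintro _ ⟨i, rfl⟩
      fin_cases i
      · exact h1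
      · exact h2
    exact hle (Subgroup.mem_top w)
  exact this

theorem p_lft (hig : Pool.Agent.F8.S_ig) (hRR : Pool.Agent.F8.S_RR) : S_lft := by
  intro p _ α Θ b z ht hm hz
  let gs : Fin 3 → GA α := ![iA α ga, iA α gb, tA α]
  let e1 : Fin 3 × Fin 2 ≃ Fin (Fintype.card (Fin 3 × Fin 2)) := Fintype.equivFin _
  obtain ⟨a, ha, hai⟩ := hig p _ (fun i => (Θ (gs (e1.symm i).1)).v (e1.symm i).2)
  have hv : ∀ (s : Fin 3) (i : Fin 2), (iz p).IsIntegralElem (iz p a * (Θ (gs s)).v i) := by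
    intro s i
    have := hai (e1 (s, i))
    simpa using this
  let I : Type := (Fin 3 ⊕ Fin 3) ⊕ ((Fin 3 × Fin 2 × Fin 2) ⊕ (Fin 3 × Fin 2)) ⊕ Fin b
  let y : I → Fl p := Sum.elim (Sum.elim (fun s => (Θ (gs s)).t.val)
      (fun s => ((Θ (gs s)).t⁻¹).val))
    (Sum.elim (Sum.elim (fun q => (Θ (gs q.1)).m.val q.2.1 q.2.2)
      (fun q => iz p a * (Θ (gs q.1)).v q.2)) z)
  have hy : ∀ i, (iz p).IsIntegralElem (y i) := by
    rintro ((s | s) | (q | q) | i)
    · exact ht _
    · have := ht (gs s)⁻¹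
      rw [map_inv, Q2.inv_t] at this
      exact this
    · exact hm _ _ _
    · exact hv _ _
    · exact hz i
  let e2 : I ≃ Fin (Fintype.card I) := Fintype.equivFin _
  obtain ⟨R, iR, j, f, Rk, iRk, π, q, fk, hLR, hyR⟩ := hRR p _ (fun i => y (e2.symm i))
    (fun i => hy _)
  have hyR' : ∀ i : I, ∃ r, j r = y i := by
    intro i
    have := hyR (e2 i)
    simpa using this
  have hj : Function.Injective j := hLR.inj
  have hmem : ∀ s : Fin 3, scl (iz p a) Θ (gs s) ∈ (Q2.map j).range := by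
    intro s
    apply lft_mem j hj
    · exact hyR' (Sum.inl (Sum.inl s))
    · exact hyR' (Sum.inl (Sum.inr s))
    · intro i k
      exact hyR' (Sum.inr (Sum.inl (Sum.inl (s, i, k))))
    · intro i
      exact hyR' (Sum.inr (Sum.inl (Sum.inr (s, i))))
  have hrange : ∀ g, scl (iz p a) Θ g ∈ (Q2.map j).range := by
    intro g
    exact lft_gen (((Q2.map j).range).comap (scl (iz p a) Θ)) (hmem 0) (hmem 1) (hmem 2) g
  refine ⟨a, R, iR, j, f, Rk, iRk, π, q, fk,
    (MonoidHom.ofInjective (lft_inj j hj)).symm.toMonoidHom.comp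
      ((scl (iz p a) Θ).codRestrict _ hrange), ha, hLR, fun i => hyR' (Sum.inr (Sum.inr i)), ?_⟩
  ext1 l
  have := (MonoidHom.ofInjective (lft_inj j hj)).apply_symm_apply ⟨scl (iz p a) Θ l, hrange l⟩
  exact congrArg Subtype.val this

end Pool.Agent.F8.NG.T
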