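import Pool.Agent.Lib.MP_305fdd_al.F8.NG.T.Stm
import Pool.Agent.Lib.MP_305fdd_al.F8.PT.cgu
import Pool.Agent.Lib.MP_305fdd_al.F8.PT.mlt

/-!
# MP_305fdd_al, transfer for positive monodromies: pieces mx, sTm
-/

set_option autoImplicit false

namespace Pool.Agent.F8.NG.T

open Pool.Agent.MP_305fdd_al Pool.Agent.Lib.MP_305fdd_al Pool.Agent.F2X Pool.Agent.F8
  Pool.Agent.F8.HN

/-- the scalar parts -/
theorem p_mx : S_mx := by
  intro G L _ _ Ψ nG nL hC R _ _ μ _ _ x β τ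
  rw [p_mlt G L Ψ Rˣ (β.comp x) ((pw τ).comp nG), p_cgu G L Ψ nG nL hC Rˣ τ, Ψ.nat β x]

/-- functoriality of `sT` -/
theorem p_sTm : S_sTm := by
  intro R S _ _ f V α ρ χ
  have h1 : ∀ g, tr (((SLm f).comp ρ) g) = f (tr (ρ g)) := fun g => tr_map f (ρ g)
  have h2 : ∀ g, (((Units.map f.toMonoidHom).comp χ) g).val = f (χ g).val := fun g => rfl
  unfold sT
  rw [map_sub, map_list_sum, List.map_map, h1]
  congr 2
  apply List.map_congr_left
  intro w _
  rw [Function.comp_apply, map_mul f, h1, h2]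

end Pool.Agent.F8.NG.T
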