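import Pool.Agent.Lib.MP_305fdd_al.F8.NG.T.Defs
import Pool.Agent.Lib.MP_305fdd_al.F8.NG.T.StmA

/-!
# MP_305fdd_al, once-punctured torus bundles with positive monodromy: transfer, statements of the pieces

General form of `StmNT.lean` (all its pieces are proved in `PT/*.lean`; most proofs here are adaptations of these
files, with the translation explained in `T/Defs.lean`: `GN N ↦ GA α` (or any group), `iN, tN, nN ↦ iA α, tA α, nA α`,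
`rN n w hw ↦ (SLm j).comp ρ₀`, `Es ℤ_[p] ↦ AT ℤ_[p] A`, `rE n R ↦ rA R ρ₀`, `jw f w hw ↦ jj f j`,
`Qd.map (-1) f ↦ TM A f`, `oc, oT, sT, Cpl, cl ↦ NG.oc, ..`; general lemmas: `NG/Cpl.lean` (`cpx`, `cpm`, `ex_iff`, `ex0`,
`sT_tw`, `Wd_pow`), `NG/Main.lean` (`NI1`)).
-/

set_option autoImplicit false

namespace Pool.Agent.F8.NG.T

open Pool.Agent.MP_305fdd_al Pool.Agent.Lib.MP_305fdd_al Pool.Agent.F2X Pool.Agent.F8
  Pool.Agent.F8.HN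
open scoped TensorProduct

noncomputable section

/-- [T mx] the scalar parts. (As `PT/mx.lean`: `p_cgu`, `p_mlt` are general.) -/
def S_mx : Prop := ∀ (G L : Type) [Group G] [Group L] (Ψ : NatBij G L)
  (nG : G →* Multiplicative ℤ) (nL : L →* Multiplicative ℤ), CmG Ψ nG nL →
  ∀ (R : Type) [CommRing R] [Finite R] (μ : Type) [CommGroup μ] [Finite μ] (x : G →* μ)
  (β : μ →* Rˣ) (τ : Rˣ),
  Ψ.toFun Rˣ (β.comp x * (pw τ).comp nG) = β.comp (Ψ.toFun μ x) * (pw τ).comp nL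

/-- [T sTm] functoriality of `sT`. (As `PT/sTm.lean`.) -/
def S_sTm : Prop := ∀ (R S : Type) [CommRing R] [CommRing S] (f : R →+* S) (V : List Bool)
  (α : MulAut F) (ρ : GA α →* SL2 R) (χ : GA α →* Rˣ),
  sT V ((SLm f).comp ρ) ((Units.map f.toMonoidHom).comp χ) = f (sT V ρ χ)

/-- [T un1] over finite fields `CN` determines the character. (Uses `S_mx`; general: `p_exT pf_mt`, `pf_mp`.)

Proof. As `PT/irF.lean` and `PT/un1.lean`. `ρ' = Φ.invFun _ ρ`; `Irr (ρ'.comp (iP a n))` (as `PT/irF.lean`, with `GA_cases`, `nA_iA`,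
`nA_tA`). `NG.NI1` for `ρ := ρ'`, `ρ' := (SLm j).comp ρ₀` (or the other way round), `X i m u = (β i m).comp (x i m u)`: for `(SLm j).comp ρ₀` `Ex1` follows from the
quadratic equation by `NG.ex_iff` for `V i m` (`WV`; the restriction of `(SLm j).comp ρ₀` to the level is irreducible on `F`,
`CN.irA`, `incP_iP`); for `ρ'` from `Ex1` for `ρ` by `S_exT` for `Ψ i m` and `Twr.res`, `S_mx`. Finally
`tr (ρ l) = tr (Φ ((SLm j).comp ρ₀) l)` by `S_mp`. -/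
def S_un1 : Prop := ∀ (V1 : List Bool) (b : ℕ) (a : MulAut F), al (Wd V1 b) = a →
  ∀ n : ℕ, 1 ≤ n → ∀ V : Fin 2 → Fin 3 → List Bool, WV a n V →
  ∀ (Λ : Type) [Group Λ] (Φ : NatBij (GP a n) Λ) (nL : Λ →* Multiplicative ℤ)
  (Ψ : ∀ (i : Fin 2) (m : Fin 3), NatBij (GP a (lv n i m)) (LL nL i m)),
  CmG Φ (nP a n) nL → Twr Φ nL Ψ → ∀ (A : Type) [CommRing A] (ρ₀ : GP a n →* SL2 A)
  (k : Type) [Field k] [Finite k] (j : A →+* k) (ρ : Λ →* SL2 k), CN V nL Ψ ρ₀ j ρ →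
  ∀ l, tr (ρ l) = tr (Φ.toFun _ ((SLm j).comp ρ₀) l)

/-- [T tl] transport of the condition at one level. (Uses `S_sTm`; general: `NG.cpm`, `pf_wm`. As `PT/tl.lean`.) -/
def S_tl : Prop := ∀ (R S : Type) [CommRing R] [CommRing S] (f : R →+* S) (V : List Bool)
  (α : MulAut F) (L : Type) [Group L] (Ψ : NatBij (GA α) L) (nL : L →* Multiplicative ℤ)
  (A : Type) [CommRing A] (ρ₀ : GA α →* SL2 A) (j : A →+* R)
  (ρ : L →* SL2 R) (c : ℕ) (μ : Type) [CommGroup μ] [Finite μ] (x : Fin c → (GA α →* μ))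
  (β : μ →* Rˣ) (τ : Fin c → Rˣ), Cpl α (fun i => β.comp (x i)) → (c : S) ≠ 0 →
  (∀ i, (τ i).val * (τ i).val - sT V ((SLm j).comp ρ₀) (β.comp (x i)) * (τ i).val + 1 = 0) →
  (∀ i, ∃ Θ : L →* Q2 R, Q2.mH.comp Θ = ρ ∧
    Q2.tH.comp Θ = β.comp (Ψ.toFun μ (x i)) * (pw (τ i)).comp nL ∧
    ∃ g h : L, ∃ u : Fin 2, f (Q2.W (Θ g) (Θ h) u) ≠ 0) →
  LC V Ψ nL ρ₀ (f.comp j) ((SLm f).comp ρ)

/-- [T fct] functoriality under homomorphisms of fields. (Uses `S_tl`; as `PT/fct.lean`.) -/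
def S_fct : Prop := ∀ (a : MulAut F) (n : ℕ) (V : Fin 2 → Fin 3 → List Bool) (Λ : Type) [Group Λ]
  (nL : Λ →* Multiplicative ℤ)
  (Ψ : ∀ (i : Fin 2) (m : Fin 3), NatBij (GP a (lv n i m)) (LL nL i m))
  (A : Type) [CommRing A] (ρ₀ : GP a n →* SL2 A) (K K' : Type) [Field K] [Field K']
  (f : K →+* K') (j : A →+* K) (ρ : Λ →* SL2 K), CN V nL Ψ ρ₀ j ρ →
  CN V nL Ψ ρ₀ (f.comp j) ((SLm f).comp ρ)

/-- [T spl] specialisation of the condition at one level. (Uses `S_tl`, `S_sTm`; general: `pf_wm`. As `PT/spl.lean`.) -/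
def S_spl : Prop := ∀ (V : List Bool) (α : MulAut F) (L : Type) [Group L] (Ψ : NatBij (GA α) L)
  (nL : L →* Multiplicative ℤ) (A : Type) [CommRing A] (ρ₀ : GA α →* SL2 A)
  (K : Type) [Field K] (j : A →+* K) (ρ : L →* SL2 K), LC V Ψ nL ρ₀ j ρ →
  ∃ (T : Set (L →* Q2 K)) (X : Set K), T.Finite ∧ X.Finite ∧ ∀ (k : Type) [Field k]
    (R : Subring K) (π : R →+* k), SpR π T X →
    ∀ (j' : A →+* R) (ρ' : L →* SL2 R), R.subtype.comp j' = j →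
    (SLm R.subtype).comp ρ' = ρ → LC V Ψ nL ρ₀ (π.comp j') ((SLm π).comp ρ')

/-- [T spc] specialisation of `CN`, for two representations with the same `j`. (Uses `S_spl`.)

Proof. As `PT/spc.lean`, with `P = Λ × (∀ i m, LL nL i m)` (finitely generated: subgroups of finite index, twice). `X` contains the
images under `j` of generators of the ring `A` (`Module.Finite ℤ A`: a finite spanning set), so `j` has values in
`R`: `j' = π ∘ (j with values in R)`; also `tr ((SLm j) (ρ₀ (iP a n [u, v]))) - 2` for the witnesses of `CN.irA`, `tr (ρ_i [u, v]) - 2` for the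
witnesses of `CN.irL` and `tr (ρ₁ l) - tr (ρ₂ l)`. (No hypotheses on the characteristic.) -/
def S_spc : Prop := ∀ (a : MulAut F) (n : ℕ) (V : Fin 2 → Fin 3 → List Bool) (Λ : Type) [Group Λ]
  [Group.FG Λ] (nL : Λ →* Multiplicative ℤ)
  (Ψ : ∀ (i : Fin 2) (m : Fin 3), NatBij (GP a (lv n i m)) (LL nL i m))
  (A : Type) [CommRing A] [Module.Finite ℤ A] (ρ₀ : GP a n →* SL2 A) (K : Type) [Field K]
  (j : A →+* K) (ρ₁ ρ₂ : Λ →* SL2 K), CN V nL Ψ ρ₀ j ρ₁ → CN V nL Ψ ρ₀ j ρ₂ → ∀ l : Λ,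
  ∃ (P : Type) (_ : Group P) (_ : Group.FG P) (T : Set (P →* Q2 K)) (X : Set K), T.Finite ∧
    X.Finite ∧ ∀ (k : Type) [Field k] (R : Subring K) (π : R →+* k), SpR π T X →
    ∃ (j' : A →+* k) (ρ₁' ρ₂' : Λ →* SL2 k), CN V nL Ψ ρ₀ j' ρ₁' ∧ CN V nL Ψ ρ₀ j' ρ₂' ∧
      (tr (ρ₁ l) ≠ tr (ρ₂ l) → tr (ρ₁' l) ≠ tr (ρ₂' l))

/-- [T un2] uniqueness. (Uses `S_un1`, `S_spc`; general: `p_spt (pf_spf pf_des) (pf_spq pf_des)`. As `PT/un2.lean`.) -/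
def S_un2 : Prop := ∀ (V1 : List Bool) (b : ℕ) (a : MulAut F), al (Wd V1 b) = a →
  ∀ n : ℕ, 1 ≤ n → ∀ V : Fin 2 → Fin 3 → List Bool, WV a n V →
  ∀ (Λ : Type) [Group Λ] [Group.FG Λ] (Φ : NatBij (GP a n) Λ) (nL : Λ →* Multiplicative ℤ)
  (Ψ : ∀ (i : Fin 2) (m : Fin 3), NatBij (GP a (lv n i m)) (LL nL i m)),
  CmG Φ (nP a n) nL → Twr Φ nL Ψ → ∀ (A : Type) [CommRing A] [Module.Finite ℤ A]
  (ρ₀ : GP a n →* SL2 A) (K : Type) [Field K] (j : A →+* K) (ρ₁ ρ₂ : Λ →* SL2 K),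
  CN V nL Ψ ρ₀ j ρ₁ → CN V nL Ψ ρ₀ j ρ₂ → ∀ l, tr (ρ₁ l) = tr (ρ₂ l)

/-! ### The `p`-adic representation -/

/-- [T irp] irreducibility on the kernel of `nL`. (Uses `S_ji`; general: `pf_mp`.)

Proof. As `PT/irp.lean`. Let `u, v ∈ F` be the witnesses of `hI`, `δ = tr (ρ₀ [u, v]) - 2 ≠ 0`, `δ δ' = N ≠ 0` (`S_ji`), `k` with `|N| < p ^ k`. As in
`irp_lift` there are `l, l' ∈ nL.ker` with `r l`, `r l'` congruent to `ρ₀ (iP a n u)`, `ρ₀ (iP a n v)` modulo `p ^ k` (i.e. after applying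
`SLm (TM A (toZModPow k))`). Let `x = tr (r [l, l']) - 2`; `TM A (toZModPow k) x = ia δ`, so
`x * ia δ' - N` is in the kernel of `TM A (toZModPow k)`, which is `p ^ k • (ℤ_p ⊗ A)` (coordinates), `x * ia δ' = N + p ^ k y`. If `jj (iz p) j x = 0` then
`N = - p ^ k η` in `Fl p` with `η = jj (iz p) j y` integral over `ℤ_p` (every element of `ℤ_p ⊗ A` is integral over `ℤ_p`), so
`N / p ^ k ∈ ℚ_p` is integral over `ℤ_p`, hence in `ℤ_p` (integrally closed), so `p ^ k ∣ N`, contradiction. -/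
def S_irp : Prop := ∀ (a : MulAut F) (n : ℕ) (Λ : Type) [Group Λ] (Φ : NatBij (GP a n) Λ)
  (nL : Λ →* Multiplicative ℤ), Function.Surjective nL → CmG Φ (nP a n) nL →
  ∀ (A : Type) [CommRing A] [IsDomain A] [Module.Free ℤ A] [Module.Finite ℤ A]
  (ρ₀ : GP a n →* SL2 A), Irr (ρ₀.comp (iP a n)) →
  ∀ (p : ℕ) [Fact p.Prime] (r : Λ →* SL2 (AT ℤ_[p] A)), RL Φ ρ₀ p r →
  ∀ j : A →+* Fl p, Irr (((SLm (jj (iz p) j)).comp r).comp nL.ker.subtype)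

/-- [T lft] descent of an affine representation to a good ring. (General: `p_ig`, `all_RR`. As `PT/lft.lean` with `GA α`.) -/
def S_lft : Prop := ∀ (p : ℕ) [Fact p.Prime] (α : MulAut F) (Θ : GA α →* Q2 (Fl p)) (b : ℕ)
  (z : Fin b → Fl p), (∀ g, (iz p).IsIntegralElem (Θ g).t.val) →
  (∀ g i j, (iz p).IsIntegralElem ((Θ g).m.val i j)) → (∀ i, (iz p).IsIntegralElem (z i)) →
  ∃ (a : ℤ_[p]) (R : Type) (_ : CommRing R) (ι : R →+* Fl p) (f : ℤ_[p] →+* R) (Rk : ℕ → Type)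
    (_ : ∀ k, CommRing (Rk k)) (π : ∀ k, R →+* Rk k) (q : ∀ k, Rk (k + 1) →+* Rk k)
    (fk : ∀ k, ZMod (p ^ k) →+* Rk k) (Θ' : GA α →* Q2 R), a ≠ 0 ∧ LR p ι f π q fk ∧
    (∀ i, ∃ y, ι y = z i) ∧ (Q2.map ι).comp Θ' = scl (iz p a) Θ

/-- [T pe] the matched affine representation over a good ring. (Uses `S_mx`; general: `pf_lh`, `pf_mt`, `pf_mp`, `pf_wm`.)

Proof. As `PT/pe.lean`, with `j_R = jj f j`, `j_k = jj (fk k) ((π k).comp j)`: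
`j_k ∘ TM A (toZModPow k) = (π k) ∘ j_R` (`jj_TM`, `comp_jj`, `LR.ck`). -/
def S_pe : Prop := ∀ (p : ℕ) [Fact p.Prime] (G L : Type) [Group G] [Group L] (Ψ : NatBij G L)
  (nG : G →* Multiplicative ℤ) (nL : L →* Multiplicative ℤ), CmG Ψ nG nL →
  ∀ (A : Type) [CommRing A] [Module.Finite ℤ A] (ρ₀ : G →* SL2 A)
  (r : L →* SL2 (AT ℤ_[p] A)), RL Ψ ρ₀ p r →
  ∀ (R : Type) [CommRing R] (ι : R →+* Fl p) (f : ℤ_[p] →+* R) (Rk : ℕ → Type)
    [∀ k, CommRing (Rk k)] (π : ∀ k, R →+* Rk k) (q : ∀ k, Rk (k + 1) →+* Rk k)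
    (fk : ∀ k, ZMod (p ^ k) →+* Rk k), LR p ι f π q fk →
  ∀ (j : A →+* R) (μ : Type) [CommGroup μ] [Finite μ] (x : G →* μ)
    (β : μ →* Rˣ) (τ : Rˣ) (Θ : G →* Q2 R), Q2.mH.comp Θ = (SLm j).comp ρ₀ →
    Q2.tH.comp Θ = β.comp x * (pw τ).comp nG → NC Θ →
  Ex1 ((SLm (jj f j)).comp r) (β.comp (Ψ.toFun μ x) * (pw τ).comp nL)

/-- [T pe2] the matched affine representation over `Fl p`. (Uses `S_pe`, `S_lft`; general: `p_Wsc`, `pf_wm`.)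

Proof. As `PT/pe2.lean`. The entries of `(SLm j).comp ρ₀ g` are images of elements of `A`, which are integral over `ℤ`. The family `z` of `S_lft`
contains the `j (e i)` for a finite spanning set `e i` of `A` over `ℤ` (instead of `w`), so `j = ι ∘ j'` with `j' : A →+* R`
(`ι` is injective and its range contains the range of `j`). -/
def S_pe2 : Prop := ∀ (p : ℕ) [Fact p.Prime] (V : List Bool) (α : MulAut F) (L : Type) [Group L]
  (Ψ : NatBij (GA α) L) (nL : L →* Multiplicative ℤ), CmG Ψ (nA α) nL →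
  ∀ (A : Type) [CommRing A] [Module.Finite ℤ A] (ρ₀ : GA α →* SL2 A)
  (r : L →* SL2 (AT ℤ_[p] A)), RL Ψ ρ₀ p r →
  ∀ (j : A →+* Fl p) (μ : Type) [CommGroup μ] [Finite μ] (x : GA α →* μ)
    (β : μ →* (Fl p)ˣ) (τ : (Fl p)ˣ),
    τ.val * τ.val - sT V ((SLm j).comp ρ₀) (β.comp x) * τ.val + 1 = 0 →
    Ex1 ((SLm j).comp ρ₀) (β.comp x * (pw τ).comp (nA α)) →
  Ex1 ((SLm (jj (iz p) j)).comp r) (β.comp (Ψ.toFun μ x) * (pw τ).comp nL)

/-- [T LCp] the condition at one level. (Uses `S_pe2`; general: `NG.cpx`, `NG.ex0`. As `PT/LCp.lean`.) -/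
def S_LCp : Prop := ∀ (p : ℕ) [Fact p.Prime] (V : List Bool) (α : MulAut F), al V = α →
  (AM α).val.det = 1 → 2 < (AM α).val.trace → ∀ (L : Type) [Group L]
  (Ψ : NatBij (GA α) L) (nL : L →* Multiplicative ℤ), CmG Ψ (nA α) nL →
  ∀ (A : Type) [CommRing A] [Module.Finite ℤ A] (ρ₀ : GA α →* SL2 A)
  (r : L →* SL2 (AT ℤ_[p] A)), RL Ψ ρ₀ p r →
  ∀ j : A →+* Fl p, Irr (((SLm j).comp ρ₀).comp (iA α)) →
  LC V Ψ nL ρ₀ j ((SLm (jj (iz p) j)).comp r)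

/-- [T CNp] the `p`-adic representations satisfy `CN`. (Uses `S_LCp`, `S_irp`, `S_ji`; general: `NG.Wd_pow`.)

Proof. As `PT/CNp.lean`. At the level `i, m`: `RL (Ψ i m) (ρ₀.comp (ic a n i m)) p (r.comp (il nL i m))` by `Twr.res`; `irA` from `S_ji` (`j` is
injective, `tr_map`). -/
def S_CNp : Prop := ∀ (V1 : List Bool) (b : ℕ) (a : MulAut F), al (Wd V1 b) = a →
  ∀ n : ℕ, 1 ≤ n → ∀ V : Fin 2 → Fin 3 → List Bool, WV a n V →
  ∀ (Λ : Type) [Group Λ] (Φ : NatBij (GP a n) Λ) (nL : Λ →* Multiplicative ℤ)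
  (Ψ : ∀ (i : Fin 2) (m : Fin 3), NatBij (GP a (lv n i m)) (LL nL i m)),
  Function.Surjective nL → CmG Φ (nP a n) nL → Twr Φ nL Ψ →
  ∀ (A : Type) [CommRing A] [IsDomain A] [Module.Free ℤ A] [Module.Finite ℤ A]
  (ρ₀ : GP a n →* SL2 A), Irr (ρ₀.comp (iP a n)) →
  ∀ (p : ℕ) [Fact p.Prime] (r : Λ →* SL2 (AT ℤ_[p] A)), RL Φ ρ₀ p r →
  ∀ j : A →+* Fl p, CN V nL Ψ ρ₀ j ((SLm (jj (iz p) j)).comp r)

/-! ### Descent to `A` -/

/-- [T CNq] a representation over `AlgebraicClosure ℚ`. (Uses `S_CNp`, `S_rL`, `S_spc`, `S_exj`; general: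
`p_spt (pf_spf pf_des) (pf_spq pf_des)`. As `PT/CNq.lean`, `p = 2`.) -/
def S_CNq : Prop := ∀ (V1 : List Bool) (b : ℕ) (a : MulAut F), al (Wd V1 b) = a →
  ∀ n : ℕ, 1 ≤ n → ∀ V : Fin 2 → Fin 3 → List Bool, WV a n V →
  ∀ (Λ : Type) [Group Λ] [Group.FG Λ] (Φ : NatBij (GP a n) Λ) (nL : Λ →* Multiplicative ℤ)
  (Ψ : ∀ (i : Fin 2) (m : Fin 3), NatBij (GP a (lv n i m)) (LL nL i m)),
  Function.Surjective nL → CmG Φ (nP a n) nL → Twr Φ nL Ψ →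
  ∀ (A : Type) [CommRing A] [IsDomain A] [Module.Free ℤ A] [Module.Finite ℤ A]
  (ρ₀ : GP a n →* SL2 A), Irr (ρ₀.comp (iP a n)) →
  ∃ (j : A →+* AlgebraicClosure ℚ) (s : Λ →* SL2 (AlgebraicClosure ℚ)), CN V nL Ψ ρ₀ j s

/-- [T val] the values. (Uses `S_un2`, `S_fct`, `S_CNp`, `S_gl`, `S_emb`, `S_sep`, `S_div`.)

Proof. As `PT/val.lean`. Let `l : Λ`, `x = tr (s l)`. For an automorphism `g` with `g ∘ j = j` the representation `(SLm g).comp s` satisfies `CN` for `j`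
(`S_fct`), so `g x = x` by `S_un2`. By `S_gl` `m x = j y`, `m ≠ 0`. Let `p` be a prime and `j' : A →+* Fl p`. With `ι` as in `S_emb`, `(SLm ι).comp s` and
`(SLm (jj (iz p) j')).comp (r p)` satisfy `CN` for `j'`, so `ι x = jj (iz p) j' (tr (r p l))` (`S_un2`) and
`jj (iz p) j' (m * tr (r p l) - ia y) = m ι x - j' y = 0`. By `S_sep` `m * tr (r p l) = ia y`; then `S_div`; `m (x - j t) = 0`. -/
def S_val : Prop := ∀ (V1 : List Bool) (b : ℕ) (a : MulAut F), al (Wd V1 b) = a →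
  ∀ n : ℕ, 1 ≤ n → ∀ V : Fin 2 → Fin 3 → List Bool, WV a n V →
  ∀ (Λ : Type) [Group Λ] [Group.FG Λ] (Φ : NatBij (GP a n) Λ) (nL : Λ →* Multiplicative ℤ)
  (Ψ : ∀ (i : Fin 2) (m : Fin 3), NatBij (GP a (lv n i m)) (LL nL i m)),
  Function.Surjective nL → CmG Φ (nP a n) nL → Twr Φ nL Ψ →
  ∀ (A : Type) [CommRing A] [IsDomain A] [Module.Free ℤ A] [Module.Finite ℤ A]
  (ρ₀ : GP a n →* SL2 A), Irr (ρ₀.comp (iP a n)) →
  ∀ (j : A →+* AlgebraicClosure ℚ) (s : Λ →* SL2 (AlgebraicClosure ℚ)), CN V nL Ψ ρ₀ j s →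
  ∀ r : (∀ (p : ℕ) [Fact p.Prime], Λ →* SL2 (AT ℤ_[p] A)),
  (∀ (p : ℕ) [Fact p.Prime], RL Φ ρ₀ p (r p)) →
  ∀ l : Λ, ∃ t : A, tr (s l) = j t ∧
    ∀ (p : ℕ) [Fact p.Prime], tr (r p l) = ia ℤ_[p] A t

/-- [T tow] the six levels.

Proof. First `tower` of `Tower.lean` for `GP a n` instead of `GN n` (same proof: `incP`, `GA_cases`, `nA_iA`, `nA_tA`): for `0 < m` and
`CmG Φ (nP a n) nL` there is `Ψ : NatBij (GP a (n * m)) (Lm nL m)` with `CmG Ψ (nP a (n * m)) (nm nL m)` and restriction along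
`incP a n m`. Apply it twice (`m = i + 2`, then `m + 1`). -/
def S_tow : Prop := ∀ (a : MulAut F) (n : ℕ) (Λ : Type) [Group Λ] (Φ : NatBij (GP a n) Λ)
  (nL : Λ →* Multiplicative ℤ), CmG Φ (nP a n) nL →
  ∃ Ψ : (∀ (i : Fin 2) (m : Fin 3), NatBij (GP a (lv n i m)) (LL nL i m)), Twr Φ nL Ψ

end

end Pool.Agent.F8.NG.T
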